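import Mathlib
import Pool.Agent.R412.RT.L
set_option autoImplicit false

/-! The endpoint inequality for general surfaces with a slab estimate and a polar estimate. -/

namespace Pool.Agent.R412.SP

open MeasureTheory Complex Set Filter Topology
open scoped ENNReal RealInnerProductSpace ComplexConjugate
open Pool.Agent.R412.RT (E ee ee_norm ee_meas ee_cont Lo Lo_ind EP TP Lr_bound Cr)
open Pool.Agent.R412.RS (cell co co_meas PS PS_meas PS_vol PS_eq frame spans_of_li prod_ind lo_gen)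

section box

variable {X : Type*} [MeasurableSpace X] (μ : Measure X) [SFinite μ] {n k : ℕ}
  (Φ N : X → E (n + 1)) (v : Fin k → E (n + 1))

/-- the extension operator -/
noncomputable def EX (f : X → ℂ) (ξ : E (n + 1)) : ℂ := ∫ x, ee ⟪Φ x, ξ⟫ * f x ∂μ

/-- the slab estimate -/
def Slab (c : ℝ≥0∞) : Prop := ∀ (v : E (n + 1)) (w : ℝ → ℝ≥0∞) (g : X → ℂ), v ≠ 0 →
  Measurable w → Integrable g μ → ∫⁻ ξ, w ⟪v, ξ⟫ * ‖EX μ Φ g ξ‖ₑ ^ 2 ≤
    c * (∫⁻ a, w a) * ∫⁻ x, ‖g x‖ₑ ^ 2 / ENNReal.ofReal |⟪v, N x⟫| ∂μ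

theorem EX_meas (hΦ : Measurable Φ) (f : X → ℂ) (hf : AEStronglyMeasurable f μ) :
    Measurable (EX μ Φ f) := by
  obtain ⟨f', hf', hff⟩ := hf
  have h1 : EX μ Φ f = EX μ Φ f' := by
    ext y
    unfold EX
    refine integral_congr_ae ?_
    filter_upwards [hff] with x hx
    rw [hx]
  rw [h1]
  unfold EX
  have : StronglyMeasurable (Function.uncurry fun (ξ : E (n + 1)) (x : X) =>
      ee ⟪Φ x, ξ⟫ * f' x) := by
    refine StronglyMeasurable.mul ?_ (hf'.comp_measurable measurable_snd)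
    refine (ee_meas.comp ?_).stronglyMeasurable
    exact Measurable.inner (hΦ.comp measurable_snd) measurable_fst
  exact this.integral_prod_right.measurable

/-- the minimum of the slab constants -/
noncomputable def Mn (L : Fin k → ℝ≥0∞) (x : X) : ℝ≥0∞ :=
  ⨅ i, L i / ENNReal.ofReal |⟪v i, N x⟫|

variable (hN : Measurable N)

include hN in
theorem ratio_meas (L : Fin k → ℝ≥0∞) (i : Fin k) :
    Measurable fun x : X => L i / ENNReal.ofReal |⟪v i, N x⟫| := by
  refine Measurable.const_div (Measurable.ennreal_ofReal ?_) _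
  exact (Measurable.inner measurable_const hN).abs

include hN in
theorem Mn_meas (L : Fin k → ℝ≥0∞) : Measurable (Mn N v L) :=
  Measurable.iInf fun i => ratio_meas N v hN L i

/-- where the index attains the minimum -/
def Sx (L : Fin k → ℝ≥0∞) (i : Fin k) : Set X :=
  {x | L i / ENNReal.ofReal |⟪v i, N x⟫| ≤ Mn N v L x}

include hN in
theorem Sx_meas (L : Fin k → ℝ≥0∞) (i : Fin k) : MeasurableSet (Sx N v L i) :=
  measurableSet_le (ratio_meas N v hN L i) (Mn_meas N v hN L)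

theorem Sx_exists [NeZero k] (L : Fin k → ℝ≥0∞) (x : X) : ∃ i, x ∈ Sx N v L i ∧
    ∀ j < i, x ∉ Sx N v L j := by
  classical
  have h0 : ∃ i, x ∈ Sx N v L i := by
    obtain ⟨i, hi⟩ := exists_eq_ciInf_of_finite (f := fun i => L i / ENNReal.ofReal |⟪v i, N x⟫|)
    exact ⟨i, hi.le⟩
  set s : Finset (Fin k) := Finset.univ.filter fun i => x ∈ Sx N v L i with hs
  have hne : s.Nonempty := by
    obtain ⟨i, hi⟩ := h0
    exact ⟨i, by simp [hs, hi]⟩
  refine ⟨s.min' hne, ?_, ?_⟩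
  · have := s.min'_mem hne
    simpa [hs] using this
  · intro j hj hjS
    have : j ∈ s := by simp [hs, hjS]
    exact absurd (s.min'_le j this) (not_le.2 hj)

variable [NeZero k]

noncomputable def idx (L : Fin k → ℝ≥0∞) (x : X) : Fin k :=
  (Sx_exists N v L x).choose

theorem idx_mem (L : Fin k → ℝ≥0∞) (x : X) : x ∈ Sx N v L (idx N v L x) :=
  (Sx_exists N v L x).choose_spec.1

theorem idx_min (L : Fin k → ℝ≥0∞) (x : X) : ∀ j < idx N v L x, x ∉ Sx N v L j :=
  (Sx_exists N v L x).choose_spec.2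

theorem idx_eq (L : Fin k → ℝ≥0∞) (i : Fin k) :
    {x | idx N v L x = i} = Sx N v L i ∩ ⋂ j : Fin k, ⋂ _ : j < i, (Sx N v L j)ᶜ := by
  ext x
  simp only [mem_ofPred_eq, mem_inter_iff, mem_iInter, mem_compl_iff]
  constructor
  · rintro rfl
    exact ⟨idx_mem N v L x, idx_min N v L x⟩
  · rintro ⟨h1, h2⟩
    rcases lt_trichotomy (idx N v L x) i with h | h | h
    · exact absurd (idx_mem N v L x) (h2 _ h)
    · exact h
    · exact absurd h1 (idx_min N v L x i h)

include hN in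
theorem idx_set_meas (L : Fin k → ℝ≥0∞) (i : Fin k) :
    MeasurableSet {x | idx N v L x = i} := by
  rw [idx_eq]
  exact (Sx_meas N v hN L i).inter (MeasurableSet.iInter fun j => MeasurableSet.iInter fun _ =>
    (Sx_meas N v hN L j).compl)

/-- the piece of `f` belonging to `i` -/
noncomputable def gp (L : Fin k → ℝ≥0∞) (f : X → ℂ) (i : Fin k) (x : X) :
    ℂ := {x | idx N v L x = i}.indicator f x

include hN in
theorem gp_int (L : Fin k → ℝ≥0∞) (f : X → ℂ) (hf : Integrable f μ)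
    (i : Fin k) : Integrable (gp N v L f i) μ := hf.indicator (idx_set_meas N v hN L i)

theorem gp_sum (L : Fin k → ℝ≥0∞) (f : X → ℂ) (x : X) :
    f x = ∑ i, gp N v L f i x := by
  classical
  unfold gp
  simp only [indicator_apply, mem_ofPred_eq]
  rw [Finset.sum_ite_eq]
  simp

include hN in
theorem EX_sum (hΦ : Measurable Φ) (L : Fin k → ℝ≥0∞) (f : X → ℂ) (hf : Integrable f μ)
    (ξ : E (n + 1)) : EX μ Φ f ξ = ∑ i, EX μ Φ (gp N v L f i) ξ := by
  unfold EX
  rw [← integral_finsetSum]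
  · congr 1
    ext x
    rw [gp_sum N v L f x, Finset.mul_sum]
  · intro p _
    refine (gp_int μ N v hN L f hf p).bdd_mul (c := 1) ?_ ?_
    · refine (ee_meas.comp ?_).aestronglyMeasurable
      exact Measurable.inner hΦ measurable_const
    · exact Eventually.of_forall fun x => (ee_norm _).le

include hN in
/-- **the box estimate** -/
theorem box (hΦ : Measurable Φ) (c : ℝ≥0∞) (hs : Slab μ Φ N c) (hv0 : ∀ i, v i ≠ 0)
    (L : Fin k → ℝ≥0∞) (hLt : ∀ i, L i ≠ ∞)
    (w : Fin k → ℝ → ℝ≥0∞) (hw : ∀ i, Measurable (w i)) (hwL : ∀ i, ∫⁻ a, w i a ≤ L i)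
    (W : E (n + 1) → ℝ≥0∞) (hW : ∀ ξ i, W ξ ≤ w i ⟪v i, ξ⟫) (f : X → ℂ)
    (hf : Integrable f μ) :
    ∫⁻ ξ, W ξ * ‖EX μ Φ f ξ‖ₑ ^ 2 ≤ (k * c) * ∫⁻ x, ‖f x‖ₑ ^ 2 * Mn N v L x ∂μ := by
  have hm : ∀ p, Measurable (EX μ Φ (gp N v L f p)) := fun p =>
    EX_meas μ Φ hΦ _ (gp_int μ N v hN L f hf p).1
  have hwm : ∀ i, Measurable fun ξ : E (n + 1) => w i ⟪v i, ξ⟫ := fun i =>
    (hw i).comp (by fun_prop)
  calc ∫⁻ ξ, W ξ * ‖EX μ Φ f ξ‖ₑ ^ 2
      ≤ ∫⁻ ξ : E (n + 1), k * ∑ p : Fin k,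
          w p ⟪v p, ξ⟫ * ‖EX μ Φ (gp N v L f p) ξ‖ₑ ^ 2 := by
        refine lintegral_mono fun ξ => ?_
        have h1 : ‖EX μ Φ f ξ‖ₑ ^ 2 ≤ k * ∑ p, ‖EX μ Φ (gp N v L f p) ξ‖ₑ ^ 2 := by
          rw [EX_sum μ Φ N v hN hΦ L f hf ξ]
          refine (pow_le_pow_left' (enorm_sum_le _ _) 2).trans ?_
          have h2 := ENNReal.rpow_sum_le_const_mul_sum_rpow (Finset.univ)
            (fun p => ‖EX μ Φ (gp N v L f p) ξ‖ₑ) (p := 2) (by norm_num)
          rw [Finset.card_univ, Fintype.card_fin] at h2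
          norm_num at h2
          simpa using h2
        calc W ξ * ‖EX μ Φ f ξ‖ₑ ^ 2 ≤ W ξ * (k *
              ∑ p, ‖EX μ Φ (gp N v L f p) ξ‖ₑ ^ 2) := mul_le_mul_right h1 _
          _ = k * ∑ p, W ξ * ‖EX μ Φ (gp N v L f p) ξ‖ₑ ^ 2 := by
              rw [← mul_assoc, mul_comm (W ξ), mul_assoc, Finset.mul_sum]
          _ ≤ _ := by
              refine mul_le_mul_right (Finset.sum_le_sum fun p _ => ?_) _
              exact mul_le_mul_left (hW ξ p) _
    _ = k * ∑ p : Fin k, ∫⁻ ξ : E (n + 1),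
          w p ⟪v p, ξ⟫ * ‖EX μ Φ (gp N v L f p) ξ‖ₑ ^ 2 := by
        rw [lintegral_const_mul, lintegral_finsetSum]
        · intro p _
          exact (hwm p).mul ((hm p).enorm.pow_const 2)
        · exact Finset.measurable_sum _ fun p _ => (hwm p).mul ((hm p).enorm.pow_const 2)
    _ ≤ k * ∑ p : Fin k, c * ∫⁻ x, ‖gp N v L f p x‖ₑ ^ 2 * Mn N v L x ∂μ := by
        refine mul_le_mul_right (Finset.sum_le_sum fun p _ => ?_) _
        refine (hs (v p) (w p) (gp N v L f p) (hv0 p) (hw p)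
          (gp_int μ N v hN L f hf p)).trans ?_
        rw [mul_assoc]
        refine mul_le_mul_right ?_ _
        refine (mul_le_mul_left (hwL p) _).trans ?_
        rw [← lintegral_const_mul']
        · refine lintegral_mono fun x => ?_
          by_cases hp : idx N v L x = p
          · have h3 : L p / ENNReal.ofReal |⟪v p, N x⟫| ≤ Mn N v L x := by
              have := idx_mem N v L x
              rw [hp] at this
              exact this
            calc L p * (‖gp N v L f p x‖ₑ ^ 2 / ENNReal.ofReal |⟪v p, N x⟫|)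
                = ‖gp N v L f p x‖ₑ ^ 2 * (L p / ENNReal.ofReal |⟪v p, N x⟫|) := by
                  rw [div_eq_mul_inv, div_eq_mul_inv]
                  ring
              _ ≤ _ := mul_le_mul_right h3 _
          · have : gp N v L f p x = 0 := by
              unfold gp
              rw [indicator_of_notMem]
              exact hp
            rw [this]
            simp
        · exact hLt p
    _ = (k * c) * ∑ p : Fin k, ∫⁻ x, ‖gp N v L f p x‖ₑ ^ 2 * Mn N v L x ∂μ := by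
        rw [← Finset.mul_sum, mul_assoc]
    _ = (k * c) * ∫⁻ x, ‖f x‖ₑ ^ 2 * Mn N v L x ∂μ := by
        congr 1
        rw [← lintegral_finsetSum']
        · refine lintegral_congr fun x => ?_
          classical
          rw [← Finset.sum_mul]
          congr 1
          unfold gp
          rw [Finset.sum_eq_single (idx N v L x)]
          · rw [indicator_of_mem]
            rfl
          · intro p _ hp
            rw [indicator_of_notMem]
            · simp
            · exact fun h => hp h.symm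
          · intro h
            exact absurd (Finset.mem_univ _) h
        · intro p _
          exact (((gp_int μ N v hN L f hf p).1.enorm).pow_const 2).mul
            (Mn_meas N v hN L).aemeasurable

end box

/-! ### the endpoint -/

variable {X : Type*} [MeasurableSpace X] (μ : Measure X) [SFinite μ] {n : ℕ}
  (Φ N : X → E (n + 1)) (v : Fin (n + 1) → E (n + 1))

/-- `‖f‖^2` in `L^(2(n+1)/n)` -/
noncomputable def nf (n : ℕ) (f : X → ℂ) : ℝ≥0∞ :=
  (∫⁻ x, ‖f x‖ₑ ^ (2 * ((n : ℝ) + 1) / n) ∂μ) ^ ((n : ℝ) / (n + 1))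

/-- the polar estimate -/
def Polar (c : ℝ≥0∞) : Prop := ∀ (v : Fin (n + 1) → E (n + 1)) (L : Fin (n + 1) → ℝ≥0∞),
  LinearIndependent ℝ v → (∀ i, L i ≠ ∞) →
    ∫⁻ x, Mn N v L x ^ (n + 1) ∂μ ≤ c * (cell v * ∏ i, L i)

omit [SFinite μ] in
theorem holder_Mn (hn : 0 < n) (hN : Measurable N) (cp : ℝ≥0∞) (hP : Polar μ N cp)
    (hv : LinearIndependent ℝ v) (L : Fin (n + 1) → ℝ≥0∞)
    (hLt : ∀ i, L i ≠ ∞) (f : X → ℂ) (hf : AEStronglyMeasurable f μ) :
    ∫⁻ x, ‖f x‖ₑ ^ 2 * Mn N v L x ∂μ ≤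
      nf μ n f * (cp ^ (1 / ((n : ℝ) + 1)) * (cell v * ∏ i, L i) ^ (1 / ((n : ℝ) + 1))) := by
  have hn' : (0 : ℝ) < n := by exact_mod_cast hn
  have hpq : Real.HolderConjugate (((n : ℝ) + 1) / n) ((n : ℝ) + 1) := by
    rw [Real.holderConjugate_iff]
    constructor
    · rw [lt_div_iff₀ hn']; linarith
    · field_simp
  have h := ENNReal.lintegral_mul_le_Lp_mul_Lq μ hpq
    (f := fun x => ‖f x‖ₑ ^ 2) (g := Mn N v L) (hf.enorm.pow_const 2)
    (Mn_meas N v hN L).aemeasurable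
  refine h.trans ?_
  refine mul_le_mul' (le_of_eq ?_) ?_
  · unfold nf
    congr 1
    · refine lintegral_congr fun x => ?_
      rw [← ENNReal.rpow_natCast, ← ENNReal.rpow_mul]
      congr 1
      push_cast
      ring
    · field_simp
  · rw [← ENNReal.mul_rpow_of_nonneg _ _ (by positivity)]
    refine ENNReal.rpow_le_rpow ?_ (by positivity)
    refine le_trans (le_of_eq ?_) (hP v L hv hLt)
    refine lintegral_congr fun x => ?_
    rw [← ENNReal.rpow_natCast]
    push_cast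
    rfl

omit [SFinite μ] in
theorem nf_zero (hn : 0 < n) (f : X → ℂ) (hf : Integrable f μ) (hf0 : nf μ n f = 0) :
    ∀ ξ : E (n + 1), EX μ Φ f ξ = 0 := by
  have hn' : (0 : ℝ) < n := by exact_mod_cast hn
  have hz : f =ᵐ[μ] 0 := by
    unfold nf at hf0
    rw [ENNReal.rpow_eq_zero_iff] at hf0
    rcases hf0 with ⟨h2, _⟩ | ⟨_, h3⟩
    · rw [lintegral_eq_zero_iff' (hf.1.enorm.pow_const _)] at h2
      filter_upwards [h2] with x hx
      have hx' : ‖f x‖ₑ ^ (2 * ((n : ℝ) + 1) / n) = 0 := hx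
      rw [ENNReal.rpow_eq_zero_iff] at hx'
      rcases hx' with ⟨h4, _⟩ | ⟨_, h5⟩
      · simpa using h4
      · exfalso
        have : 0 < 2 * ((n : ℝ) + 1) / n := by positivity
        linarith
    · exfalso
      have : 0 < (n : ℝ) / (n + 1) := by positivity
      linarith
  intro y
  unfold EX
  rw [integral_eq_zero_of_ae]
  filter_upwards [hz] with x hx
  rw [hx]
  simp

/-- the constant of the endpoint estimate -/
noncomputable def Ce (n : ℕ) (c cp : ℝ≥0∞) : ℝ≥0∞ := (n + 1) * c * cp ^ (1 / ((n : ℝ) + 1))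

/-- **the endpoint estimate**, majorants by functions of one linear coordinate -/
theorem endpointW (hn : 0 < n) (hΦ : Measurable Φ) (hN : Measurable N) (c cp : ℝ≥0∞)
    (hc : c ≠ 0) (hcp : cp ≠ 0) (hs : Slab μ Φ N c) (hP : Polar μ N cp)
    (hv : LinearIndependent ℝ v)
    (w : Fin (n + 1) → ℝ → ℝ≥0∞) (hw : ∀ i, Measurable (w i))
    (W : E (n + 1) → ℝ≥0∞) (hW : ∀ ξ i, W ξ ≤ w i ⟪v i, ξ⟫) (f : X → ℂ)
    (hf : Integrable f μ) :
    ∫⁻ ξ, W ξ * ‖EX μ Φ f ξ‖ₑ ^ 2 ≤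
      Ce n c cp * (cell v * ∏ i, ∫⁻ a, w i a) ^ (1 / ((n : ℝ) + 1)) * nf μ n f := by
  have hfr := frame v hv
  by_cases h0 : ∃ i, ∫⁻ a, w i a = 0
  · obtain ⟨i, hi⟩ := h0
    rw [lintegral_eq_zero_iff (hw i)] at hi
    have h1 : ∀ᵐ ξ : E (n + 1), w i ⟪v i, ξ⟫ = 0 := by
      have h2 : ∀ᵐ y ∂(Measure.map (co v) (volume : Measure (E (n + 1)))), w i (y i) = 0 := by
        rw [hfr.2.2]
        refine Measure.ae_smul_measure ?_ _
        exact (Measure.quasiMeasurePreserving_eval (μ := fun _ : Fin (n + 1) =>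
          (volume : Measure ℝ)) i).ae (p := fun a => w i a = 0) hi
      exact ae_of_ae_map (co_meas v).aemeasurable h2
    have h3 : ∫⁻ ξ, W ξ * ‖EX μ Φ f ξ‖ₑ ^ 2 = 0 := by
      rw [lintegral_eq_zero_of_ae_eq_zero]
      filter_upwards [h1] with ξ hξ
      have : W ξ = 0 := le_antisymm ((hW ξ i).trans hξ.le) zero_le
      simp [this]
    rw [h3]
    exact zero_le
  push Not at h0
  by_cases ht : ∃ i, ∫⁻ a, w i a = ∞
  · obtain ⟨i, hi⟩ := ht
    have h1 : ∏ i, ∫⁻ a, w i a = ∞ := by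
      rw [← Finset.mul_prod_erase _ _ (Finset.mem_univ i), hi, ENNReal.top_mul]
      exact Finset.prod_ne_zero_iff.2 fun j _ => h0 j
    have hCe : Ce n c cp ≠ 0 := by
      unfold Ce
      refine mul_ne_zero (mul_ne_zero (by positivity) hc) ?_
      rw [Ne, ENNReal.rpow_eq_zero_iff]
      rintro (⟨h4, _⟩ | ⟨_, h4⟩)
      · exact hcp h4
      · have : 0 < 1 / ((n : ℝ) + 1) := by positivity
        linarith
    by_cases hf0 : nf μ n f = 0
    · simp [nf_zero μ Φ hn f hf hf0]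
    · have h3 : Ce n c cp * (cell v * ∏ i, ∫⁻ a, w i a) ^ (1 / ((n : ℝ) + 1)) * nf μ n f = ∞ := by
        rw [h1, ENNReal.mul_top hfr.1, ENNReal.top_rpow_of_pos (by positivity),
          ENNReal.mul_top hCe, ENNReal.top_mul hf0]
      rw [h3]
      exact le_top
  push Not at ht
  have hv0 : ∀ i, v i ≠ 0 := fun i => hv.ne_zero i
  refine (box μ Φ N v hN hΦ c hs hv0 (fun i => ∫⁻ a, w i a) ht w hw (fun i => le_rfl) W hW f
    hf).trans ?_
  refine (mul_le_mul_right (holder_Mn μ N v hn hN cp hP hv _ ht f hf.1) _).trans (le_of_eq ?_)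
  unfold Ce
  push_cast
  ring

/-- **the endpoint estimate for product sets in arbitrary linear frames** -/
theorem endpointS (hn : 0 < n) (hΦ : Measurable Φ) (hN : Measurable N) (c cp : ℝ≥0∞)
    (hc : c ≠ 0) (hcp : cp ≠ 0) (hs : Slab μ Φ N c) (hP : Polar μ N cp)
    (hv : LinearIndependent ℝ v) (A : Fin (n + 1) → Set ℝ)
    (hA : ∀ i, MeasurableSet (A i)) (f : X → ℂ) (hf : Integrable f μ) :
    ∫⁻ ξ in PS v A, ‖EX μ Φ f ξ‖ₑ ^ 2 ≤
      Ce n c cp * volume (PS v A) ^ (1 / ((n : ℝ) + 1)) * nf μ n f := by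
  have h := endpointW μ Φ N v hn hΦ hN c cp hc hcp hs hP hv (fun i => (A i).indicator 1)
    (fun i => measurable_one.indicator (hA i)) ((PS v A).indicator 1) (fun ξ i => by
      by_cases hξ : ξ ∈ PS v A
      · rw [indicator_of_mem hξ, indicator_of_mem (hξ i)]
        exact le_rfl
      · rw [indicator_of_notMem hξ]
        exact zero_le) f hf
  have h1 : ∀ i, ∫⁻ a, (A i).indicator (1 : ℝ → ℝ≥0∞) a = volume (A i) := fun i =>
    lintegral_indicator_one (hA i)
  simp_rw [h1] at h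
  rw [← PS_vol v hv A hA] at h
  refine le_trans (le_of_eq ?_) h
  rw [← lintegral_indicator (PS_meas v A hA)]
  refine lintegral_congr fun ξ => ?_
  by_cases hξ : ξ ∈ PS v A
  · rw [indicator_of_mem hξ, indicator_of_mem hξ, Pi.one_apply, one_mul]
  · rw [indicator_of_notMem hξ, indicator_of_notMem hξ, zero_mul]

/-- **product weights in arbitrary linear frames**, Lorentz norms at the endpoint -/
theorem lorentzS (hn : 0 < n) (hΦ : Measurable Φ) (hN : Measurable N) (c cp : ℝ≥0∞)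
    (hc : c ≠ 0) (hcp : cp ≠ 0) (hs : Slab μ Φ N c) (hP : Polar μ N cp)
    (hv : LinearIndependent ℝ v)
    (w : Fin (n + 1) → ℝ → ℝ≥0∞) (hw : ∀ i, Measurable (w i)) (f : X → ℂ)
    (hf : Integrable f μ) :
    ∫⁻ ξ, (∏ i, w i ⟪v i, ξ⟫) * ‖EX μ Φ f ξ‖ₑ ^ 2 ≤
      Ce n c cp * cell v ^ (1 / ((n : ℝ) + 1)) * nf μ n f * ∏ i, Lo ((n : ℝ) + 1) (w i) := by
  set G : E (n + 1) → ℝ≥0∞ := fun ξ => ‖EX μ Φ f ξ‖ₑ ^ 2 with hG
  have hGm : Measurable G := (EX_meas μ Φ hΦ f hf.1).enorm.pow_const 2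
  set ρ : Measure (Fin (n + 1) → ℝ) := Measure.map (co v) (volume.withDensity G) with hρ
  have key : ∀ F : (Fin (n + 1) → ℝ) → ℝ≥0∞, Measurable F →
      ∫⁻ y, F y ∂ρ = ∫⁻ ξ, F (co v ξ) * G ξ := by
    intro F hF
    have hFc : Measurable fun ξ => F (co v ξ) := hF.comp (co_meas v)
    rw [hρ, lintegral_map hF (co_meas v), lintegral_withDensity_eq_lintegral_mul _ hGm hFc]
    refine lintegral_congr fun ξ => ?_
    simp only [Pi.mul_apply]
    rw [mul_comm]
  have hpm : ∀ w : Fin (n + 1) → ℝ → ℝ≥0∞, (∀ i, Measurable (w i)) →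
      Measurable fun y : Fin (n + 1) → ℝ => ∏ i, w i (y i) := fun w hw =>
    Finset.measurable_prod _ fun i _ => (hw i).comp (measurable_pi_apply i)
  have h1 := lo_gen ρ ((n : ℝ) + 1) (by positivity)
    (Ce n c cp * cell v ^ (1 / ((n : ℝ) + 1)) * nf μ n f)
    (fun A hA => by
      rw [key _ (hpm _ fun i => measurable_one.indicator (hA i))]
      have h2 := endpointS μ Φ N v hn hΦ hN c cp hc hcp hs hP hv A hA f hf
      rw [PS_vol v hv A hA, ENNReal.mul_rpow_of_nonneg _ _ (by positivity)] at h2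
      calc ∫⁻ ξ, (∏ i, (A i).indicator (1 : ℝ → ℝ≥0∞) (co v ξ i)) * G ξ
          = ∫⁻ ξ in PS v A, ‖EX μ Φ f ξ‖ₑ ^ 2 := by
            rw [← lintegral_indicator (PS_meas v A hA)]
            refine lintegral_congr fun ξ => ?_
            rw [prod_ind]
            have h3 : co v ξ ∈ Set.pi univ A ↔ ξ ∈ PS v A := by
              rw [PS_eq]; rfl
            by_cases hξ : ξ ∈ PS v A
            · rw [indicator_of_mem hξ, indicator_of_mem (h3.2 hξ), Pi.one_apply, one_mul]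
            · rw [indicator_of_notMem hξ, indicator_of_notMem (fun h => hξ (h3.1 h)), zero_mul]
        _ ≤ _ := h2
        _ = _ := by
            rw [ENNReal.prod_rpow_of_nonneg (by positivity)]
            ring) w hw
  rw [key _ (hpm w hw)] at h1
  exact h1

omit [SFinite μ] in
theorem nf_mono (f g : X → ℂ) (c : ℝ) (hc : 0 ≤ c) (hn : 0 < n)
    (h : ∀ x, ‖g x‖ ≤ c * ‖f x‖) : nf μ n g ≤ ENNReal.ofReal c ^ 2 * nf μ n f := by
  have hn' : (0 : ℝ) < n := by exact_mod_cast hn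
  have hq : 0 ≤ 2 * ((n : ℝ) + 1) / n := by positivity
  have h1 : ∀ x, ‖g x‖ₑ ≤ ENNReal.ofReal c * ‖f x‖ₑ := by
    intro x
    rw [← ofReal_norm, ← ofReal_norm, ← ENNReal.ofReal_mul hc]
    exact ENNReal.ofReal_le_ofReal (h x)
  unfold nf
  calc (∫⁻ x, ‖g x‖ₑ ^ (2 * ((n : ℝ) + 1) / n) ∂μ) ^ ((n : ℝ) / (n + 1))
      ≤ (∫⁻ x, ENNReal.ofReal c ^ (2 * ((n : ℝ) + 1) / n) *
          ‖f x‖ₑ ^ (2 * ((n : ℝ) + 1) / n) ∂μ) ^ ((n : ℝ) / (n + 1)) := by
        refine ENNReal.rpow_le_rpow (lintegral_mono fun x => ?_) (by positivity)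
        rw [← ENNReal.mul_rpow_of_nonneg _ _ hq]
        exact ENNReal.rpow_le_rpow (h1 x) hq
    _ = _ := by
        rw [lintegral_const_mul' _ _ (ENNReal.rpow_ne_top_of_nonneg hq ENNReal.ofReal_ne_top),
          ENNReal.mul_rpow_of_nonneg _ _ (by positivity), ← ENNReal.rpow_mul]
        congr 1
        rw [← ENNReal.rpow_natCast]
        congr 1
        push_cast
        field_simp

/-- the constant below the endpoint -/
noncomputable def Cw (n : ℕ) (c cp : ℝ≥0∞) (δ r : ℝ) : ℝ≥0∞ :=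
  Ce n c cp * ENNReal.ofReal (2 ^ (n + 1)) ^ 2 *
    ENNReal.ofReal (Cr ((n : ℝ) + 1) r (δ⁻¹ ^ (1 / r))) ^ (n + 1)

theorem Cw_ne_top (n : ℕ) (c cp : ℝ≥0∞) (hc : c ≠ ∞) (hcp : cp ≠ ∞) (δ r : ℝ) :
    Cw n c cp δ r ≠ ∞ := by
  unfold Cw Ce
  refine ENNReal.mul_ne_top (ENNReal.mul_ne_top (ENNReal.mul_ne_top (ENNReal.mul_ne_top ?_ hc)
    ?_) ?_) ?_
  · simp
  · exact ENNReal.rpow_ne_top_of_nonneg (by positivity) hcp
  · exact ENNReal.pow_ne_top ENNReal.ofReal_ne_top
  · exact ENNReal.pow_ne_top ENNReal.ofReal_ne_top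

/-- **product weights in orthonormal frames**, `L^r` norms below the endpoint -/
theorem weightsO (hn : 0 < n) (hΦ : Measurable Φ) (hN : Measurable N) (c cp : ℝ≥0∞)
    (hc : c ≠ 0) (hcp : cp ≠ 0) (hs : Slab μ Φ N c) (hP : Polar μ N cp)
    (K δ : ℝ) (hδ : 0 < δ) (hK : 4 * Real.pi * K * δ ≤ 1) (hΦK : ∀ x, ‖Φ x‖ ≤ K)
    (r : ℝ) (hr : 1 ≤ r) (hrn : r < n + 1)
    (e : OrthonormalBasis (Fin (n + 1)) ℝ (E (n + 1)))
    (w : Fin (n + 1) → ℝ → ℝ≥0∞) (hw : ∀ i, Measurable (w i)) (f : X → ℂ)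
    (hf : Integrable f μ) :
    ∫⁻ ξ, (∏ i, w i ⟪e i, ξ⟫) * ‖EX μ Φ f ξ‖ₑ ^ 2 ≤
      Cw n c cp δ r * nf μ n f * ∏ i, (∫⁻ a, w i a ^ r) ^ (1 / r) := by
  set p : Fin (n + 1) → X → ℝ := fun i x => ⟪e i, Φ x⟫ with hpdef
  have hp : ∀ i, Measurable (p i) := fun i => Measurable.inner measurable_const hΦ
  have hEP : ∀ (g : X → ℂ) (y : Fin (n + 1) → ℝ),
      EX μ Φ g (e.repr.symm (WithLp.toLp 2 y)) = EP μ p g y := by
    intro g y
    unfold EX EP
    congr 1
    ext x
    congr 2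
    rw [← e.sum_inner_mul_inner]
    refine Finset.sum_congr rfl fun i _ => ?_
    rw [Pool.Agent.R412.RT.inner_repr_symm, real_inner_comm]
  have hcov : ∀ (g : X → ℂ) (hg : Integrable g μ) (w : Fin (n + 1) → ℝ → ℝ≥0∞)
      (hw : ∀ i, Measurable (w i)), ∫⁻ ξ, (∏ i, w i ⟪e i, ξ⟫) * ‖EX μ Φ g ξ‖ₑ ^ 2 =
      TP μ p g w := by
    intro g hg w hw
    rw [Pool.Agent.R412.RT.cov e]
    · unfold TP
      refine lintegral_congr fun y => ?_
      simp only [Pool.Agent.R412.RT.inner_repr_symm, hEP]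
    · refine Measurable.mul ?_ ((EX_meas μ Φ hΦ g hg.1).enorm.pow_const 2)
      exact Finset.measurable_prod _ fun i _ => (hw i).comp (by fun_prop)
  rw [hcov f hf w hw]
  have hli : LinearIndependent ℝ (fun i => e i) := e.orthonormal.linearIndependent
  have hcell : cell (fun i => e i) = 1 := by
    have h1 : cell (fun i => e i) = volume (PS (fun i => e i) fun _ => Ioc (0 : ℝ) 1) := rfl
    rw [h1, ← lintegral_indicator_one (PS_meas _ _ fun _ => measurableSet_Ioc),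
      Pool.Agent.R412.RT.cov e _ (measurable_one.indicator (PS_meas _ _ fun _ =>
        measurableSet_Ioc))]
    have h2 : ∀ y : Fin (n + 1) → ℝ, (PS (fun i => e i) fun _ => Ioc (0 : ℝ) 1).indicator
        (1 : E (n + 1) → ℝ≥0∞) (e.repr.symm (WithLp.toLp 2 y)) =
        (Set.pi univ fun _ => Ioc (0 : ℝ) 1).indicator 1 y := by
      intro y
      have h3 : e.repr.symm (WithLp.toLp 2 y) ∈ (PS (fun i => e i) fun _ => Ioc (0 : ℝ) 1) ↔
          y ∈ (Set.pi univ fun _ => Ioc (0 : ℝ) 1) := by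
        unfold PS
        simp only [mem_ofPred_eq, Pool.Agent.R412.RT.inner_repr_symm, Set.mem_pi, mem_univ,
          true_implies]
      by_cases h : y ∈ (Set.pi univ fun _ => Ioc (0 : ℝ) 1)
      · rw [indicator_of_mem h, indicator_of_mem (h3.2 h)]
        rfl
      · rw [indicator_of_notMem h, indicator_of_notMem (fun h' => h (h3.1 h'))]
    simp_rw [h2]
    rw [lintegral_indicator_one (MeasurableSet.univ_pi fun _ => measurableSet_Ioc), volume_pi_pi]
    simp
  have h2 := Lr_bound μ p hp δ hδ K hK ((n : ℝ) + 1) r hr hrn f hf (fun x _ i => by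
      refine (abs_real_inner_le_norm _ _).trans ?_
      rw [e.orthonormal.1 i, one_mul]
      exact hΦK x) (Ce n c cp * (ENNReal.ofReal (2 ^ (n + 1)) ^ 2 * nf μ n f))
    (fun g hg hgf A hA => by
      rw [Fintype.card_fin] at hgf
      have h3 := endpointS μ Φ N (fun i => e i) hn hΦ hN c cp hc hcp hs hP hli A hA g hg
      rw [PS_vol _ hli A hA, hcell, one_mul] at h3
      rw [← hcov g hg _ (fun i => measurable_one.indicator (hA i))]
      have h5 : ∫⁻ ξ, (∏ i, (A i).indicator (1 : ℝ → ℝ≥0∞) ⟪e i, ξ⟫) * ‖EX μ Φ g ξ‖ₑ ^ 2 =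
          ∫⁻ ξ in PS (fun i => e i) A, ‖EX μ Φ g ξ‖ₑ ^ 2 := by
        rw [← lintegral_indicator (PS_meas _ A hA)]
        refine lintegral_congr fun ξ => ?_
        have h6 := prod_ind A (fun i => ⟪e i, ξ⟫)
        rw [h6]
        have h7 : (fun i => ⟪e i, ξ⟫) ∈ Set.pi univ A ↔ ξ ∈ PS (fun i => e i) A := by
          unfold PS
          simp
        by_cases hξ : ξ ∈ PS (fun i => e i) A
        · rw [indicator_of_mem hξ, indicator_of_mem (h7.2 hξ), Pi.one_apply, one_mul]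
        · rw [indicator_of_notMem hξ, indicator_of_notMem (fun h => hξ (h7.1 h)), zero_mul]
      rw [h5]
      refine h3.trans ?_
      rw [ENNReal.prod_rpow_of_nonneg (by positivity)]
      have h4 := nf_mono μ f g (2 ^ (n + 1)) (by positivity) hn hgf
      calc Ce n c cp * (∏ i, volume (A i)) ^ (1 / ((n : ℝ) + 1)) * nf μ n g
          ≤ Ce n c cp * (∏ i, volume (A i)) ^ (1 / ((n : ℝ) + 1)) *
            (ENNReal.ofReal (2 ^ (n + 1)) ^ 2 * nf μ n f) := mul_le_mul_right h4 _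
        _ = _ := by ring) w hw
  refine h2.trans (le_of_eq ?_)
  rw [Finset.prod_mul_distrib, Finset.prod_const, Finset.card_univ, Fintype.card_fin]
  unfold Cw
  ring

end Pool.Agent.R412.SP
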