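import Mathlib
import Pool.Agent.TH278.FN.SphD
set_option autoImplicit false

/-! Finner type interpolation of mixed norm bounds: quadratic version. -/

namespace Pool.Agent.R412.SP

open MeasureTheory Set
open scoped ENNReal NNReal RealInnerProductSpace
open Pool.Agent.TH278.FN

/-- mixed norm `L^(qv) L^2`, quadratic -/
theorem vertex_pair2 {n : ℕ} {ι : Type*} (S : ι → Finset (Fin n))
    (f : ι → (Fin n → ℝ) → ℝ≥0∞) (c : ι) (hm : Measurable (f c)) (hd : DependsOn (f c) (S c))
    (qv : ℝ) (hqv : 2 < qv) (F : (Fin n → ℝ) → ℝ≥0∞) (hF : Measurable F) (K : ℝ≥0∞)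
    (x₀ : Fin n → ℝ)
    (hV : mg (S c) (fun x => (mg (S c)ᶜ (fun x => F x ^ (2 : ℝ)) x) ^ (qv / 2)) x₀ ≤ K ^ qv) :
    ∫⁻ x, F x ^ (2 : ℝ) * f c x ^ (1 - 2 / qv) ≤
      K ^ (2 : ℝ) * mg (S c) (f c) x₀ ^ (1 - 2 / qv) := by
  have hqv0 : 0 < qv := by linarith
  have hε : 0 < 1 - 2 / qv := by
    rw [sub_pos, div_lt_one hqv0]; exact hqv
  have hc : ((1 - 2 / qv)⁻¹).HolderConjugate (qv / 2) := by
    rw [Real.holderConjugate_iff]
    constructor
    · rw [one_lt_inv₀ hε]
      have : 0 < 2 / qv := by positivity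
      linarith
    · rw [inv_inv]
      field_simp
      ring
  have hF2 : Measurable fun x => F x ^ (2 : ℝ) := hF.pow_const _
  have hf2 : Measurable fun x => f c x ^ (1 - 2 / qv) := hm.pow_const _
  have hprod : Measurable fun x => f c x ^ (1 - 2 / qv) * F x ^ (2 : ℝ) := hf2.mul hF2
  have mF2 : Measurable (mg (S c)ᶜ fun x => F x ^ (2 : ℝ)) := mg_meas _ hF2
  calc ∫⁻ x, F x ^ (2 : ℝ) * f c x ^ (1 - 2 / qv)
      = ∫⁻ x, f c x ^ (1 - 2 / qv) * F x ^ (2 : ℝ) := by
        refine lintegral_congr fun x => ?_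
        rw [mul_comm]
    _ = mg (S c) (mg (S c)ᶜ (fun x => f c x ^ (1 - 2 / qv) * F x ^ (2 : ℝ))) x₀ :=
        mg_split (S c) hprod x₀
    _ ≤ mg (S c) (fun x => f c x ^ (1 - 2 / qv) * mg (S c)ᶜ (fun x => F x ^ (2 : ℝ)) x) x₀ := by
        refine mg_mono _ (fun x => le_of_eq ?_) x₀
        refine mg_mul (S c)ᶜ (S c) (fun x => f c x ^ (1 - 2 / qv)) _ ?_ disjoint_compl_left hF2 x
        intro a b hab
        simp only
        rw [hd hab]
    _ ≤ (mg (S c) (fun x => (f c x ^ (1 - 2 / qv)) ^ ((1 - 2 / qv)⁻¹)) x₀) ^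
          (1 / (1 - 2 / qv)⁻¹) *
        (mg (S c) (fun x => (mg (S c)ᶜ (fun x => F x ^ (2 : ℝ)) x) ^ (qv / 2)) x₀) ^
          (1 / (qv / 2)) := mg_holder _ _ _ hc hf2 mF2 x₀
    _ ≤ (mg (S c) (f c) x₀) ^ (1 - 2 / qv) * (K ^ qv) ^ (1 / (qv / 2)) := by
        refine mul_le_mul' (le_of_eq ?_) (ENNReal.rpow_le_rpow hV (by positivity))
        rw [one_div, inv_inv]
        congr 2
        ext x
        rw [← ENNReal.rpow_mul, mul_inv_cancel₀ hε.ne', ENNReal.rpow_one]
    _ = _ := by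
        rw [← ENNReal.rpow_mul, mul_comm]
        congr 2
        field_simp

theorem main_abs2 (n : ℕ) (hn : 2 ≤ n) (q : ℝ) (hq : 2 * (n : ℝ) / (n - 1) < q) :
    ∃ qv r : ℝ, 4 < qv ∧ 2 < r ∧ ∀ {ι : Type} [DecidableEq ι] (P : Finset ι)
    (S : ι → Finset (Fin n)) (w : ι → ℝ) (f : ι → (Fin n → ℝ) → ℝ≥0∞)
    (_ : ∀ j ∈ P, Measurable (f j)) (_ : ∀ j ∈ P, DependsOn (f j) (S j)) (_ : ∀ j ∈ P, 0 ≤ w j)
    (_ : ∀ i, ∑ j ∈ P with i ∈ S j, w j = 1)
    (_ : ∀ j ∈ P, (S j).card = 1 ∨ (S j).card = 2)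
    (F : (Fin n → ℝ) → ℝ≥0∞) (_ : Measurable F) (K : ℝ≥0∞) (x₀ : Fin n → ℝ)
    (_ : ∀ j ∈ P, w j ≠ 0 → (S j).card = 2 →
      mg (S j) (fun x => (mg (S j)ᶜ (fun x => F x ^ (2 : ℝ)) x) ^ (qv / 2)) x₀ ≤ K ^ qv)
    (_ : ∀ j ∈ P, w j ≠ 0 → (S j).card = 1 → ∀ x, mg (S j)ᶜ (fun x => F x ^ r) x ≤ K ^ r)
    (_ : ∀ x, F x ≤ K),
    ∫⁻ x, F x ^ (2 : ℝ) * ∏ i ∈ P, f i x ^ (w i * (1 - 2 / q)) ≤
      K ^ (2 : ℝ) * ∏ i ∈ P, mg (S i) (f i) x₀ ^ (w i * (1 - 2 / q)) := by
  obtain ⟨e, he0, he4, hee, hen⟩ := params n hn q hq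
  have hn' : (2 : ℝ) ≤ n := by exact_mod_cast hn
  have hq0 : 0 < q := by
    by_contra h
    push Not at h
    have : q * ((n : ℝ) - 1 - e * n) ≤ 0 := mul_nonpos_of_nonpos_of_nonneg h hen.le
    nlinarith
  have h12 : 0 < 1 - 2 * e := by linarith
  have h1e : 0 < 1 - e := by linarith
  obtain ⟨qv, hqv⟩ : ∃ qv : ℝ, qv = 4 * (1 - e) / (1 - 2 * e) := ⟨_, rfl⟩
  obtain ⟨r, hr⟩ : ∃ r : ℝ, r = 2 * (1 + e) := ⟨_, rfl⟩
  have hqv4 : 4 < qv := by
    rw [hqv, lt_div_iff₀ h12]
    linarith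
  have hr2 : 2 < r := by rw [hr]; linarith
  refine ⟨qv, r, hqv4, hr2, ?_⟩
  intro ι _ P S w f hm hd hw hcov hcard F hF K x₀ hV2 hV1 hV0
  have hqv0 : 0 < qv := by linarith
  have hr0 : 0 < r := by linarith
  have h2qv : 1 - 2 / qv = 1 / (2 * (1 - e)) := by
    rw [hqv]
    field_simp
    ring
  -- exponents
  set a : ι → ℝ := fun j => if (S j).card = 2 then 0 else 1 - 2 / r with ha
  set ε : ι → ℝ := fun j => if (S j).card = 2 then 1 / (2 * (1 - e)) else 2 / r with hε
  set κ : ι → ℝ := fun j => if (S j).card = 2 then 4 * (1 - e) else r with hκ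
  set D : ℝ := ∑ j ∈ P, w j * (if (S j).card = 2 then 2 * (1 - e) else 1) - 1 with hD
  set lam : ℝ := 1 / (q * D) with hlam
  have hsc := sum_card P S w hcov
  have hDge : (n : ℝ) - 1 - e * n ≤ D := by
    have h1 : (1 - e) * (n : ℝ) ≤ ∑ j ∈ P, w j * (if (S j).card = 2 then 2 * (1 - e) else 1) := by
      rw [← hsc, Finset.mul_sum]
      refine Finset.sum_le_sum fun j hj => ?_
      have hwj := hw j hj
      rcases hcard j hj with h | h
      · rw [if_neg (by omega), h]
        push_cast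
        nlinarith
      · rw [if_pos h, h]
        push_cast
        nlinarith
    rw [hD]
    linarith
  have hDpos : 0 < D := lt_of_lt_of_le hen hDge
  have hlam0 : 0 < lam := by positivity
  have hlamD : lam * D = 1 / q := by
    rw [hlam]; field_simp
  have hκsum : lam * ∑ j ∈ P, κ j * w j ≤ 1 := by
    have h1 : ∑ j ∈ P, κ j * w j ≤ 2 * (1 + e) * n := by
      rw [← hsc, Finset.mul_sum]
      refine Finset.sum_le_sum fun j hj => ?_
      have hwj := hw j hj
      simp only [hκ]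
      rcases hcard j hj with h | h
      · rw [if_neg (by omega), h, hr]
        push_cast
        nlinarith
      · rw [if_pos h, h]
        push_cast
        nlinarith
    calc lam * ∑ j ∈ P, κ j * w j ≤ lam * (2 * (1 + e) * n) := by gcongr
      _ = (2 * n * (1 + e)) / (q * D) := by rw [hlam]; ring
      _ ≤ 1 := by
        rw [div_le_one (by positivity)]
        calc _ ≤ q * (n - 1 - e * n) := hee
          _ ≤ q * D := by gcongr
  set θ : ι → ℝ := fun j => lam * (κ j * w j) with hθ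
  have hκ0 : ∀ j, 0 ≤ κ j := by
    intro j
    simp only [hκ]
    split_ifs <;> linarith
  have hsumθ : ∑ j ∈ P, θ j = lam * ∑ j ∈ P, κ j * w j := by
    rw [Finset.mul_sum]
  have hF2 : Measurable fun x => F x ^ (2 : ℝ) := hF.pow_const _
  have key := combine (volume : Measure (Fin n → ℝ)) P w a ε θ (1 - ∑ j ∈ P, θ j) (2 * lam)
    (1 - 2 / q)
    hw (by
      intro j _
      simp only [ha]
      split_ifs
      · exact le_rfl
      · rw [sub_nonneg, div_le_one hr0]
        linarith)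
    (by
      intro j _
      simp only [hε]
      split_ifs
      · positivity
      · positivity)
    (fun j hj => mul_nonneg hlam0.le (mul_nonneg (hκ0 j) (hw j hj)))
    (by rw [hsumθ]; linarith) (by positivity) (by ring)
    (by
      intro j _
      simp only [hε, hθ, hκ]
      split_ifs
      · field_simp
        ring
      · field_simp)
    (by
      have h1 : ∑ j ∈ P, a j * θ j = ∑ j ∈ P, θ j - 2 * lam * (D + 1) := by
        rw [hD, sub_add_cancel, Finset.mul_sum, ← Finset.sum_sub_distrib]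
        refine Finset.sum_congr rfl fun j _ => ?_
        simp only [ha, hθ, hκ]
        split_ifs
        · ring
        · field_simp
      rw [h1]
      have : 2 * lam * (D + 1) = 2 / q + 2 * lam := by
        have : 2 * lam * (D + 1) = 2 * (lam * D) + 2 * lam := by ring
        rw [this, hlamD]
        ring
      rw [this]
      ring)
    (fun x => F x ^ (2 : ℝ)) hF2 f hm (K ^ (2 : ℝ)) (fun j => mg (S j) (f j) x₀)
    (vertex_zero P S w f hm hd hw hcov (fun x => F x ^ (2 : ℝ)) (K ^ (2 : ℝ)) x₀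
      (fun x => ENNReal.rpow_le_rpow (hV0 x) (by norm_num)))
    (by
      intro j hj hθj
      have hwj : w j ≠ 0 := by
        intro h0
        apply hθj
        simp only [hθ, h0, mul_zero]
      rcases hcard j hj with h | h
      · have h2 : (S j).card ≠ 2 := by omega
        simp only [ha, hε, if_neg h2]
        have hr1 : 1 < r / 2 := by linarith
        have hc : ((r / 2) / (r / 2 - 1)).HolderConjugate (r / 2) :=
          (Real.HolderConjugate.conjExponent hr1).symm
        have e1 : 1 / ((r / 2) / (r / 2 - 1)) = 1 - 2 / r := by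
          field_simp
        have h3 := vertex_le' P S w f hm hd hw hcov j hj _ (r / 2) hc
          (fun x => F x ^ (2 : ℝ)) hF2 (K ^ (2 : ℝ)) x₀ (by
            intro x
            have h4 := hV1 j hj hwj h x
            have e5 : ∀ t : ℝ≥0∞, (t ^ (2 : ℝ)) ^ (r / 2) = t ^ r := by
              intro t
              rw [← ENNReal.rpow_mul]
              congr 1
              ring
            simp only [e5]
            exact h4)
        rw [e1] at h3
        have e2 : 1 - (1 - 2 / r) = 2 / r := by ring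
        rw [e2] at h3
        exact h3
      · simp only [ha, hε, if_pos h, mul_zero, ENNReal.rpow_zero, Finset.prod_const_one, one_mul]
        have h3 := vertex_pair2 S f j (hm j hj) (hd j hj) qv (by linarith) F hF K x₀
          (hV2 j hj hwj h)
        rw [h2qv] at h3
        exact h3)
  exact key

end Pool.Agent.R412.SP
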