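import Mathlib
import Pool.Agent.R412.SP.F2
set_option autoImplicit false

/-! The Finner form on the sphere, quadratic version. -/

namespace Pool.Agent.R412.SP

open MeasureTheory Set Complex Filter Topology
open scoped ENNReal NNReal RealInnerProductSpace
open Pool.Agent.TH278.FN
open Pool.Agent.H789R2.FR (E sg T sg_finite sg_inv)
open Pool.Agent.H438R2.BR (J J_mp)

theorem sphere_bdd2 (n : ℕ) (hn : 3 ≤ n) (q : ℝ) (hq : 2 * (n : ℝ) / (n - 1) < q) :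
    ∃ C : ℝ≥0, ∀ (G : E n → ℂ) (M : ℝ), Measurable G → (∀ z, ‖G z‖ ≤ M) →
      ∀ {ι : Type} [DecidableEq ι] (P : Finset ι) (S : ι → Finset (Fin n)) (w : ι → ℝ)
        (f : ι → (Fin n → ℝ) → ℝ≥0∞), Adm P S w f → ∀ x₀ : Fin n → ℝ,
      (∫⁻ x, FG G x ^ (2 : ℝ) * ∏ i ∈ P, f i x ^ (w i * (1 - 2 / q)) ≤
        (C * ENNReal.ofReal M) ^ (2 : ℝ) *
          ∏ i ∈ P, mg (S i) (f i) x₀ ^ (w i * (1 - 2 / q))) ∧
      ((∀ j ∈ P, (S j).card = 1 → w j = 0) →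
        ∫⁻ x, FG G x ^ (2 : ℝ) * ∏ i ∈ P, f i x ^ (w i * (1 - 2 / q)) ≤
        (C * (∫⁻ z, ‖G z‖ₑ ^ (4 : ℝ) ∂(sg n)) ^ (1 / 4 : ℝ)) ^ (2 : ℝ) *
          ∏ i ∈ P, mg (S i) (f i) x₀ ^ (w i * (1 - 2 / q))) := by
  obtain ⟨qv, r, hqv, hr, hmain⟩ := main_abs2 n (by omega) q hq
  obtain ⟨C2, hC2⟩ := vpair n hpair hn qv hqv
  obtain ⟨C1, hC1⟩ := vsingle n hsing hn r hr
  haveI := sg_finite n
  have hqv0 : 0 < qv := by linarith
  have hr0 : 0 < r := by linarith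
  -- total mass
  obtain ⟨A, hA⟩ : ∃ A : ℝ≥0, sg n univ = A := ⟨(sg n univ).toNNReal,
    (ENNReal.coe_toNNReal (measure_ne_top _ _)).symm⟩
  -- L^4 norm of a bounded function
  have h4M : ∀ (G : E n → ℂ) (M : ℝ), (∀ z, ‖G z‖ ≤ M) →
      (∫⁻ z, ‖G z‖ₑ ^ (4 : ℝ) ∂(sg n)) ^ (1 / 4 : ℝ) ≤
        ((A ^ (1 / 4 : ℝ) : ℝ≥0) : ℝ≥0∞) * ENNReal.ofReal M := by
    intro G M hM
    have h1 : ∀ z, ‖G z‖ₑ ≤ ENNReal.ofReal M := fun z => by
      rw [← ofReal_norm]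
      exact ENNReal.ofReal_le_ofReal (hM z)
    calc (∫⁻ z, ‖G z‖ₑ ^ (4 : ℝ) ∂(sg n)) ^ (1 / 4 : ℝ)
        ≤ (∫⁻ z, ENNReal.ofReal M ^ (4 : ℝ) ∂(sg n)) ^ (1 / 4 : ℝ) := by
          gcongr with z
          exact h1 z
      _ = _ := by
          rw [lintegral_const, hA, ENNReal.mul_rpow_of_nonneg _ _ (by norm_num),
            ← ENNReal.rpow_mul, mul_comm, ENNReal.coe_rpow_of_nonneg _ (by norm_num)]
          norm_num
  -- trivial bound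
  have h0 : ∀ (G : E n → ℂ), Measurable G → ∀ x, FG G x ≤
      ((A ^ (3 / 4 : ℝ) : ℝ≥0) : ℝ≥0∞) * (∫⁻ z, ‖G z‖ₑ ^ (4 : ℝ) ∂(sg n)) ^ (1 / 4 : ℝ) := by
    intro G hG x
    refine (T_le1 G _).trans ?_
    have hc : (4 / 3 : ℝ).HolderConjugate 4 := by
      rw [Real.holderConjugate_iff]
      norm_num
    have h1 := ENNReal.lintegral_mul_le_Lp_mul_Lq (sg n) hc (f := fun _ => 1)
      (g := fun z => ‖G z‖ₑ) aemeasurable_const hG.enorm.aemeasurable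
    simp only [Pi.mul_apply, one_mul, ENNReal.one_rpow, lintegral_one] at h1
    refine h1.trans (le_of_eq ?_)
    rw [hA, ENNReal.coe_rpow_of_nonneg _ (by norm_num)]
    norm_num
  refine ⟨C1 + (C2 + A ^ (3 / 4 : ℝ)) * (1 + A ^ (1 / 4 : ℝ)), ?_⟩
  intro G M hG hM ι _ P S w f hadm x₀
  obtain ⟨hm, hd, hw, hcov, hcard⟩ := hadm
  set N4 : ℝ≥0∞ := (∫⁻ z, ‖G z‖ₑ ^ (4 : ℝ) ∂(sg n)) ^ (1 / 4 : ℝ) with hN4
  set CC : ℝ≥0 := C1 + (C2 + A ^ (3 / 4 : ℝ)) * (1 + A ^ (1 / 4 : ℝ)) with hCC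
  have hCC2 : C2 ≤ CC := by
    rw [hCC]
    calc C2 ≤ C2 + A ^ (3 / 4 : ℝ) := le_self_add
      _ = (C2 + A ^ (3 / 4 : ℝ)) * 1 := (mul_one _).symm
      _ ≤ (C2 + A ^ (3 / 4 : ℝ)) * (1 + A ^ (1 / 4 : ℝ)) := by gcongr; exact le_self_add
      _ ≤ _ := le_add_self
  have hCCA : A ^ (3 / 4 : ℝ) ≤ CC := by
    rw [hCC]
    calc A ^ (3 / 4 : ℝ) ≤ C2 + A ^ (3 / 4 : ℝ) := le_add_self
      _ = (C2 + A ^ (3 / 4 : ℝ)) * 1 := (mul_one _).symm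
      _ ≤ (C2 + A ^ (3 / 4 : ℝ)) * (1 + A ^ (1 / 4 : ℝ)) := by gcongr; exact le_self_add
      _ ≤ _ := le_add_self
  have hCC1 : C1 ≤ CC := le_self_add
  have hCC2' : C2 * A ^ (1 / 4 : ℝ) ≤ CC := by
    rw [hCC]
    calc C2 * A ^ (1 / 4 : ℝ) ≤ (C2 + A ^ (3 / 4 : ℝ)) * (1 + A ^ (1 / 4 : ℝ)) := by
          gcongr
          · exact le_self_add
          · exact le_add_self
      _ ≤ _ := le_add_self
  have hCCA' : A ^ (3 / 4 : ℝ) * A ^ (1 / 4 : ℝ) ≤ CC := by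
    rw [hCC]
    calc A ^ (3 / 4 : ℝ) * A ^ (1 / 4 : ℝ) ≤ (C2 + A ^ (3 / 4 : ℝ)) * (1 + A ^ (1 / 4 : ℝ)) := by
          gcongr
          · exact le_add_self
          · exact le_add_self
      _ ≤ _ := le_add_self
  constructor
  · refine hmain P S w f hm hd hw hcov hcard (FG G) (FG_meas G hG) (CC * ENNReal.ofReal M) x₀
      ?_ ?_ ?_
    · intro j _ _ hj
      refine (hC2 G hG ⟨M, hM⟩ (S j) hj x₀).trans ?_
      refine ENNReal.rpow_le_rpow ?_ hqv0.le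
      calc (C2 : ℝ≥0∞) * N4 ≤ C2 * (((A ^ (1 / 4 : ℝ) : ℝ≥0) : ℝ≥0∞) * ENNReal.ofReal M) := by
            gcongr
            exact h4M G M hM
        _ = ((C2 * A ^ (1 / 4 : ℝ) : ℝ≥0) : ℝ≥0∞) * ENNReal.ofReal M := by
            rw [ENNReal.coe_mul, mul_assoc]
        _ ≤ CC * ENNReal.ofReal M := by
            gcongr
    · intro j _ _ hj x
      refine (hC1 G hG M hM (S j) hj x).trans ?_
      refine ENNReal.rpow_le_rpow ?_ hr0.le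
      gcongr
    · intro x
      refine (h0 G hG x).trans ?_
      calc ((A ^ (3 / 4 : ℝ) : ℝ≥0) : ℝ≥0∞) * N4 ≤ ((A ^ (3 / 4 : ℝ) : ℝ≥0) : ℝ≥0∞) *
            (((A ^ (1 / 4 : ℝ) : ℝ≥0) : ℝ≥0∞) * ENNReal.ofReal M) := by
            gcongr
            exact h4M G M hM
        _ = ((A ^ (3 / 4 : ℝ) * A ^ (1 / 4 : ℝ) : ℝ≥0) : ℝ≥0∞) * ENNReal.ofReal M := by
            rw [ENNReal.coe_mul, mul_assoc]
        _ ≤ CC * ENNReal.ofReal M := by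
            gcongr
  · intro hz
    refine hmain P S w f hm hd hw hcov hcard (FG G) (FG_meas G hG) (CC * N4) x₀ ?_ ?_ ?_
    · intro j _ _ hj
      refine (hC2 G hG ⟨M, hM⟩ (S j) hj x₀).trans ?_
      refine ENNReal.rpow_le_rpow ?_ hqv0.le
      gcongr
    · intro j hj hwj hcj
      exact absurd (hz j hj hcj) hwj
    · intro x
      refine (h0 G hG x).trans ?_
      gcongr

theorem fatou2 {n : ℕ} (G : E n → ℂ) (hG : Measurable G) (hGi : Integrable G (sg n))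
    (h : (Fin n → ℝ) → ℝ≥0∞) (hh : Measurable h) (B : ℝ≥0∞)
    (hB : ∀ N : ℕ, ∫⁻ x, FG (tr G N) x ^ (2 : ℝ) * h x ≤ B) :
    ∫⁻ x, FG G x ^ (2 : ℝ) * h x ≤ B := by
  have h1 : ∀ x, FG G x ^ (2 : ℝ) * h x ≤
      liminf (fun N => FG (tr G N) x ^ (2 : ℝ) * h x) atTop := by
    intro x
    have h2 : Tendsto (fun N => FG (tr G N) x ^ (2 : ℝ)) atTop (𝓝 (FG G x ^ (2 : ℝ))) :=
      ((T_tendsto G hG hGi _).enorm).ennrpow_const 2
    by_cases hx : FG G x ^ (2 : ℝ) = 0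
    · rw [hx, zero_mul]; exact zero_le
    · have h3 : Tendsto (fun N => FG (tr G N) x ^ (2 : ℝ) * h x) atTop
          (𝓝 (FG G x ^ (2 : ℝ) * h x)) :=
        ENNReal.Tendsto.mul_const h2 (Or.inl hx)
      rw [h3.liminf_eq]
  calc ∫⁻ x, FG G x ^ (2 : ℝ) * h x ≤
        ∫⁻ x, liminf (fun N => FG (tr G N) x ^ (2 : ℝ) * h x) atTop := lintegral_mono h1
    _ ≤ liminf (fun N => ∫⁻ x, FG (tr G N) x ^ (2 : ℝ) * h x) atTop :=
        lintegral_liminf_le fun N => ((FG_meas _ (tr_meas G hG N)).pow_const _).mul hh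
    _ ≤ B := by
        refine liminf_le_of_frequently_le' ?_
        exact Frequently.of_forall fun N => hB N

/-- the Finner form on the sphere for functions on the whole space -/
theorem sphere_gen2 (n : ℕ) (hn : 3 ≤ n) (q : ℝ) (hq : 2 * (n : ℝ) / (n - 1) < q) :
    ∃ C : ℝ≥0, ∀ (G : E n → ℂ), Measurable G → Integrable G (sg n) →
      ∀ (v : Fin n → ℝ) (w : Fin n → Fin n → ℝ), Weights v w →
      ∀ (φ : Fin n → ℝ → ℝ≥0∞) (g : Fin n → Fin n → ℝ × ℝ → ℝ≥0∞), (∀ i, Measurable (φ i)) →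
      (∀ i j, Measurable (g i j)) →
      (∀ M : ℝ, (∀ z, ‖G z‖ ≤ M) →
        ∫⁻ x : Fin n → ℝ, FG G x ^ (2 : ℝ) * ((∏ i, φ i (x i) ^ (v i * (1 - 2 / q))) *
          ∏ i, ∏ j ∈ Finset.Ioi i, g i j (x i, x j) ^ (w i j * (1 - 2 / q))) ≤
        (C * ENNReal.ofReal M) ^ (2 : ℝ) * ((∏ i, (∫⁻ t, φ i t) ^ (v i * (1 - 2 / q))) *
          ∏ i, ∏ j ∈ Finset.Ioi i, (∫⁻ z, g i j z) ^ (w i j * (1 - 2 / q)))) ∧
      ((∀ i, v i = 0) →
        ∫⁻ x : Fin n → ℝ, FG G x ^ (2 : ℝ) * ((∏ i, φ i (x i) ^ (v i * (1 - 2 / q))) *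
          ∏ i, ∏ j ∈ Finset.Ioi i, g i j (x i, x j) ^ (w i j * (1 - 2 / q))) ≤
        (C * (∫⁻ z, ‖G z‖ₑ ^ (4 : ℝ) ∂(sg n)) ^ (1 / 4 : ℝ)) ^ (2 : ℝ) *
          ((∏ i, (∫⁻ t, φ i t) ^ (v i * (1 - 2 / q))) *
          ∏ i, ∏ j ∈ Finset.Ioi i, (∫⁻ z, g i j z) ^ (w i j * (1 - 2 / q)))) := by
  obtain ⟨C, hC⟩ := sphere_bdd2 n hn q hq
  refine ⟨C, ?_⟩
  intro G hG hGi v w hw φ g hφ hg
  have hadm := adm_of v w hw φ g hφ hg
  constructor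
  · intro M hM
    have h1 := (hC G M hG hM (PI n) SI (wI v w) (fI φ g) hadm 0).1
    rw [prod_mg v w φ g hg] at h1
    simp_rw [prod_fI] at h1
    exact h1
  · intro hz
    refine fatou2 G hG hGi _ ?_ _ fun N => ?_
    · refine Measurable.mul ?_ ?_
      · exact Finset.measurable_fun_prod _ fun i _ =>
          ((hφ i).comp (measurable_pi_apply i)).pow_const _
      · refine Finset.measurable_fun_prod _ fun i _ => Finset.measurable_fun_prod _ fun j _ => ?_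
        exact ((hg i j).comp ((measurable_pi_apply i).prodMk (measurable_pi_apply j))).pow_const _
    have h1 := (hC (tr G N) N (tr_meas G hG N) (tr_le G N) (PI n) SI (wI v w) (fI φ g) hadm 0).2
      (by
        intro p _ hc
        rw [card_SI] at hc
        have hp : p.1 = p.2 := by
          by_contra h
          rw [if_neg h] at hc
          omega
        unfold wI
        rw [if_pos hp, hz])
    rw [prod_mg v w φ g hg] at h1
    simp_rw [prod_fI] at h1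
    refine h1.trans ?_
    gcongr with z
    rw [← ofReal_norm, ← ofReal_norm]
    exact ENNReal.ofReal_le_ofReal (tr_le' G N z)


end Pool.Agent.R412.SP
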