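import Mathlib
import Pool.Agent.R412.SP.AB
import Pool.Agent.H789R2.FR.Sph
set_option autoImplicit false

/-! The polar estimate on the unit sphere. -/

namespace Pool.Agent.R412.SP

open MeasureTheory Complex Set Filter Topology Metric
open scoped ENNReal RealInnerProductSpace ComplexConjugate
open Pool.Agent.R412.RT (E ee ee_norm ee_meas ee_cont Mn_pow)
open Pool.Agent.R412.RS (cell co co_meas PS PS_meas PS_vol PS_eq frame spans_of_li RB RB_meas
  RB_vol)
open Pool.Agent.H789R2.FR (sg sg_ae sg_finite sg_inv)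

variable {n : ℕ}

/-- surface measure on the unit sphere -/
noncomputable def sigma (n : ℕ) : Measure (sphere (0 : E n) 1) := (volume : Measure (E n)).toSphere

instance (n : ℕ) : IsFiniteMeasure (sigma n) := by unfold sigma; infer_instance

/-- the inclusion of the sphere -/
def inc (n : ℕ) (x : sphere (0 : E n) 1) : E n := x

theorem inc_meas (n : ℕ) : Measurable (inc n) := measurable_subtype_coe

theorem map_inc (n : ℕ) (h : E n → ℝ≥0∞) (hh : Measurable h) :
    ∫⁻ z, h z ∂(sg n) = ∫⁻ x, h (inc n x) ∂(sigma n) := by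
  rw [sg, lintegral_map hh measurable_subtype_coe]
  rfl

theorem Mn_lt (v : Fin (n + 1) → E (n + 1)) (hv : LinearIndependent ℝ v)
    (L : Fin (n + 1) → ℝ≥0∞) (hLt : ∀ i, L i ≠ ∞) (x : E (n + 1)) (hx : x ≠ 0) :
    Mn (fun z : E (n + 1) => z) v L x ≠ ∞ := by
  obtain ⟨j, hj⟩ : ∃ j, ⟪v j, x⟫ ≠ 0 := by
    by_contra hcon
    push Not at hcon
    exact hx (spans_of_li v hv x hcon)
  refine ne_top_of_le_ne_top ?_ (iInf_le _ j)
  refine ENNReal.div_ne_top (hLt j) ?_
  rw [Ne, ENNReal.ofReal_eq_zero, not_le]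
  exact abs_pos.2 hj

theorem polar_sg (v : Fin (n + 1) → E (n + 1)) (hv : LinearIndependent ℝ v)
    (L : Fin (n + 1) → ℝ≥0∞) (hLt : ∀ i, L i ≠ ∞) :
    ∫⁻ x, Mn (fun z : E (n + 1) => z) v L x ^ (n + 1) ∂(sg (n + 1)) ≤
      ((n + 1) * 2 ^ (n + 1)) * (cell v * ∏ i, L i) := by
  set l : Fin (n + 1) → ℝ := fun i => (L i).toReal with hl
  have hLl : ∀ i, L i = ENNReal.ofReal (l i) := fun i => (ENNReal.ofReal_toReal (hLt i)).symm
  have hl0 : ∀ i, 0 ≤ l i := fun i => ENNReal.toReal_nonneg
  have hp := Pool.Agent.H789R2.FR.polar (Nat.succ_pos n) ((RB v l).indicator 1)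
    (measurable_one.indicator (RB_meas v l))
  rw [lintegral_indicator_one (RB_meas v l), RB_vol v hv] at hp
  calc ∫⁻ x, Mn (fun z : E (n + 1) => z) v L x ^ (n + 1) ∂(sg (n + 1))
      ≤ ∫⁻ x, (n + 1) * (∫⁻ r in Ioi (0 : ℝ), ENNReal.ofReal (r ^ (n + 1 - 1)) *
          (RB v l).indicator 1 (r • x)) ∂(sg (n + 1)) := by
        refine lintegral_mono_ae ?_
        filter_upwards [sg_ae (n + 1)] with x hx
        have hx0 : x ≠ 0 := by
          rintro rfl
          rw [norm_zero] at hx
          exact zero_ne_one hx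
        rw [Mn_pow _ (Mn_lt v hv L hLt x hx0)]
        refine mul_le_mul_right (setLIntegral_mono' measurableSet_Ioi fun r hr => ?_) _
        have hr' : 0 < r := hr
        by_cases hxm : ENNReal.ofReal r ≤ Mn (fun z : E (n + 1) => z) v L x
        · have hmem : r • x ∈ RB v l := by
            intro i
            rw [inner_smul_right, abs_mul, abs_of_pos hr']
            have h2 : ENNReal.ofReal r ≤ L i / ENNReal.ofReal |⟪v i, x⟫| :=
              hxm.trans (iInf_le _ i)
            by_cases hJ : ⟪v i, x⟫ = 0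
            · rw [hJ, abs_zero, mul_zero]
              exact hl0 i
            · rw [ENNReal.le_div_iff_mul_le, hLl i, ← ENNReal.ofReal_mul hr'.le,
                ENNReal.ofReal_le_ofReal_iff (hl0 i)] at h2
              · exact h2
              · left
                rw [Ne, ENNReal.ofReal_eq_zero, not_le]
                exact abs_pos.2 hJ
              · left
                exact ENNReal.ofReal_ne_top
          rw [if_pos hxm, indicator_of_mem hmem, Pi.one_apply, mul_one, Nat.add_sub_cancel]
        · rw [if_neg hxm]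
          exact zero_le
    _ = (n + 1) * (cell v * ∏ i, ENNReal.ofReal (2 * l i)) := by
        rw [lintegral_const_mul', ← hp]
        exact ENNReal.add_ne_top.2 ⟨ENNReal.natCast_ne_top n, ENNReal.one_ne_top⟩
    _ = _ := by
        simp_rw [ENNReal.ofReal_mul zero_le_two, ← hLl]
        rw [Finset.prod_mul_distrib, Finset.prod_const, Finset.card_univ, Fintype.card_fin,
          ENNReal.ofReal_ofNat]
        ring

/-- **the polar estimate on the sphere** -/
theorem polar_S : Polar (n := n) (sigma (n + 1)) (inc (n + 1)) ((n + 1) * 2 ^ (n + 1)) := by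
  intro v L hv hLt
  refine le_trans (le_of_eq ?_) (polar_sg v hv L hLt)
  rw [map_inc]
  · rfl
  · exact (Mn_meas (fun z : E (n + 1) => z) v measurable_id L).pow_const _

end Pool.Agent.R412.SP
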