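import Mathlib
import Pool.Agent.R412.SP.PL
import Pool.Agent.R412.RT.A2
import Pool.Agent.TH304.J1597
set_option autoImplicit false

/-! The slab estimate on the unit sphere. -/

namespace Pool.Agent.R412.SP

open MeasureTheory Complex Set Filter Topology Metric
open scoped ENNReal RealInnerProductSpace ComplexConjugate
open Pool.Agent.R412.RT (E ee ee_norm ee_meas ee_cont ee_add)
open Pool.Agent.H789R2.FR (sg sg_ae sg_finite sg_inv)
open Pool.Agent.H438R2.BR (J J_mp J_inner)
open Pool.Agent.H438R2.BR.T10 (e0 e0_norm sg_one)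

/-- Plancherel inequality -/
theorem plan1 {m : ℕ} (g : E m → ℂ) (hg : Integrable g) :
    ∫⁻ t : E m, ‖∫ y, ee ⟪y, t⟫ * g y‖ₑ ^ 2 ≤ ∫⁻ y, ‖g y‖ₑ ^ 2 := by
  have hdet : (ContinuousLinearMap.id ℝ (E m)).det = 1 := by
    unfold ContinuousLinearMap.det
    simp
  have h := Pool.Agent.R412.RT.planch (id : E m → E m) measurable_id
    (fun _ => ContinuousLinearMap.id ℝ (E m))
    univ MeasurableSet.univ (fun x _ => hasFDerivWithinAt_id x univ) (injOn_id _)
    (fun x _ => by rw [hdet]; exact one_ne_zero) (by simp) g hg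
    (fun x hx => absurd (mem_univ x) hx)
  refine h.trans (le_of_eq ?_)
  refine lintegral_congr fun x => ?_
  rw [hdet, abs_one, ENNReal.ofReal_one, div_one]

/-- the radius -/
noncomputable def rh {m : ℕ} (y : E m) : ℝ := Real.sqrt (1 - ‖y‖ ^ 2)

theorem rh_meas {m : ℕ} : Measurable (rh (m := m)) := by
  unfold rh
  exact Real.continuous_sqrt.measurable.comp (measurable_const.sub (measurable_norm.pow_const 2))

theorem rh_pos {m : ℕ} {y : E m} (hy : y ∈ ball (0 : E m) 1) : 0 < rh y := by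
  rw [mem_ball_zero_iff] at hy
  unfold rh
  have := norm_nonneg y
  exact Real.sqrt_pos.2 (by nlinarith)

/-- the parametrization of a half sphere -/
noncomputable def pg {m : ℕ} (s : E 1) (y : E m) : E (1 + m) := J (rh y • s) y

theorem pg_meas {m : ℕ} (s : E 1) : Measurable (pg (m := m) s) := by
  unfold pg
  exact (J_mp 1 m).measurable.comp ((rh_meas.smul measurable_const).prodMk measurable_id)

/-- the density -/
noncomputable def nu (m : ℕ) : Measure (E m) :=
  (volume.restrict (ball (0 : E m) 1)).withDensity fun y => ENNReal.ofReal ((rh y)⁻¹)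

theorem wt_meas {m : ℕ} : Measurable fun y : E m => ENNReal.ofReal ((rh y)⁻¹) :=
  rh_meas.inv.ennreal_ofReal

theorem arch1 (m : ℕ) (hm : 1 ≤ m) (f : E (1 + m) → ℝ≥0∞) (hf : Measurable f) :
    ∫⁻ z, f z ∂(sg (1 + m)) = (∫⁻ y, f (pg e0 y) ∂(nu m)) + ∫⁻ y, f (pg (-e0) y) ∂(nu m) := by
  rw [Pool.Agent.TH278.FN.arch 1 m le_rfl hm f hf]
  have hk : ∀ s : E 1, ∫⁻ y, f (pg s y) ∂(nu m) =
      ∫⁻ y in ball (0 : E m) 1, ENNReal.ofReal ((rh y)⁻¹) * f (pg s y) := by
    intro s
    unfold nu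
    exact lintegral_withDensity_eq_lintegral_mul _ wt_meas (hf.comp (pg_meas s))
  have hms : Measurable fun y : E m => ENNReal.ofReal ((rh y)⁻¹) * f (pg e0 y) :=
    wt_meas.mul (hf.comp (pg_meas e0))
  rw [hk, hk, ← lintegral_add_left hms]
  refine setLIntegral_congr_fun measurableSet_ball ?_
  intro y hy
  simp only
  rw [sg_one]
  have h1 : (1 - ‖y‖ ^ 2) ^ ((((1 : ℕ) : ℝ) - 2) / 2) = (rh y)⁻¹ := by
    have h2 : 0 < 1 - ‖y‖ ^ 2 := by
      rw [mem_ball_zero_iff] at hy
      have := norm_nonneg y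
      nlinarith
    unfold rh
    rw [Real.sqrt_eq_rpow, ← Real.rpow_neg h2.le]
    congr 1
    norm_num
  rw [h1, ← mul_add]
  rfl

theorem sg_eq (m : ℕ) (hm : 1 ≤ m) :
    sg (1 + m) = (nu m).map (pg e0) + (nu m).map (pg (-e0)) := by
  ext S hS
  rw [Measure.add_apply, Measure.map_apply (pg_meas _) hS, Measure.map_apply (pg_meas _) hS,
    ← lintegral_indicator_one hS, arch1 m hm _ (measurable_one.indicator hS),
    ← lintegral_indicator_one (pg_meas e0 hS), ← lintegral_indicator_one (pg_meas (-e0) hS)]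
  rfl

/-- the function on the ball -/
noncomputable def hh {m : ℕ} (g : E (1 + m) → ℂ) (s a : E 1) (y : E m) : ℂ :=
  (ball (0 : E m) 1).indicator (fun y => ((rh y)⁻¹ : ℝ) • (ee (rh y * ⟪s, a⟫) * g (pg s y))) y

theorem hh_int {m : ℕ} (g : E (1 + m) → ℂ) (s a : E 1)
    (hi : Integrable g ((nu m).map (pg s))) (hg : Measurable g) : Integrable (hh g s a) := by
  have h1 : Integrable (fun y => g (pg s y)) (nu m) := hi.comp_measurable (pg_meas s)
  have h2 : Integrable (fun y => ee (rh y * ⟪s, a⟫) * g (pg s y)) (nu m) := by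
    refine h1.bdd_mul (c := 1) ?_ ?_
    · exact (ee_meas.comp (rh_meas.mul measurable_const)).aestronglyMeasurable
    · exact Eventually.of_forall fun x => (ee_norm _).le
  unfold nu at h2
  rw [integrable_withDensity_iff_integrable_smul' wt_meas
    (Eventually.of_forall fun y => ENNReal.ofReal_lt_top)] at h2
  unfold hh
  rw [integrable_indicator_iff measurableSet_ball]
  refine h2.congr ?_
  filter_upwards with y
  rw [ENNReal.toReal_ofReal]
  exact inv_nonneg.2 (Real.sqrt_nonneg _)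

theorem piece_eq {m : ℕ} (g : E (1 + m) → ℂ) (s a : E 1) (t : E m) (hg : Measurable g) :
    ∫ z, ee ⟪z, J a t⟫ * g z ∂((nu m).map (pg s)) = ∫ y, ee ⟪y, t⟫ * hh g s a y := by
  have hFm : Measurable fun z : E (1 + m) => ee ⟪z, J a t⟫ * g z :=
    (ee_meas.comp (Measurable.inner measurable_id measurable_const)).mul hg
  rw [integral_map (pg_meas s).aemeasurable hFm.aestronglyMeasurable]
  unfold nu
  rw [integral_withDensity_eq_integral_toReal_smul wt_meas
    (Eventually.of_forall fun y => ENNReal.ofReal_lt_top), ← integral_indicator measurableSet_ball]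
  congr 1
  ext y
  unfold hh
  by_cases hy : y ∈ ball (0 : E m) 1
  · have h0 : 0 ≤ (rh y)⁻¹ := inv_nonneg.2 (Real.sqrt_nonneg _)
    rw [indicator_of_mem hy, indicator_of_mem hy, ENNReal.toReal_ofReal h0]
    unfold pg
    rw [J_inner, real_inner_smul_left, add_comm, ee_add]
    rw [mul_smul_comm]
    congr 1
    ring
  · rw [indicator_of_notMem hy, indicator_of_notMem hy, mul_zero]

/-- the slab estimate in the first coordinate -/
theorem slab0 (m : ℕ) (hm : 1 ≤ m) (g : E (1 + m) → ℂ) (hg : Measurable g)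
    (hgi : Integrable g (sg (1 + m))) (a : E 1) :
    ∫⁻ t : E m, ‖∫ z, ee ⟪z, J a t⟫ * g z ∂(sg (1 + m))‖ₑ ^ 2 ≤
      2 * ∫⁻ z, ‖g z‖ₑ ^ 2 / ENNReal.ofReal |⟪J e0 (0 : E m), z⟫| ∂(sg (1 + m)) := by
  have hsg := sg_eq m hm
  have hi1 : Integrable g ((nu m).map (pg e0)) := by
    rw [hsg] at hgi
    exact (integrable_add_measure.1 hgi).1
  have hi2 : Integrable g ((nu m).map (pg (-e0))) := by
    rw [hsg] at hgi
    exact (integrable_add_measure.1 hgi).2
  have hb : ∀ (μ : Measure (E (1 + m))), Integrable g μ → ∀ t : E m,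
      Integrable (fun z => ee ⟪z, J a t⟫ * g z) μ := by
    intro μ h t
    refine h.bdd_mul (c := 1) ?_ ?_
    · exact (ee_meas.comp (Measurable.inner measurable_id measurable_const)).aestronglyMeasurable
    · exact Eventually.of_forall fun x => (ee_norm _).le
  set F : E 1 → E m → ℂ := fun s t => ∫ y, ee ⟪y, t⟫ * hh g s a y with hF
  have hFm : ∀ s, Integrable g ((nu m).map (pg s)) → AEMeasurable (fun t => ‖F s t‖ₑ ^ 2) := by
    intro s hs
    refine AEMeasurable.pow_const ?_ 2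
    refine AEStronglyMeasurable.enorm ?_
    have : AEStronglyMeasurable (Function.uncurry fun (t y : E m) => ee ⟪y, t⟫ * hh g s a y)
        (volume.prod volume) :=
      (ee_meas.comp (Measurable.inner measurable_snd
        measurable_fst)).aestronglyMeasurable.mul
        (hh_int g s a hs hg).aestronglyMeasurable.comp_snd
    exact this.integral_prod_right'
  have h1 : ∀ t : E m, ‖∫ z, ee ⟪z, J a t⟫ * g z ∂(sg (1 + m))‖ₑ ^ 2 ≤
      2 * (‖F e0 t‖ₑ ^ 2 + ‖F (-e0) t‖ₑ ^ 2) := by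
    intro t
    rw [hsg, integral_add_measure (hb _ hi1 t) (hb _ hi2 t), piece_eq g e0 a t hg,
      piece_eq g (-e0) a t hg]
    refine (pow_le_pow_left' (enorm_add_le _ _) 2).trans ?_
    have h2 := ENNReal.rpow_add_le_mul_rpow_add_rpow ‖F e0 t‖ₑ ‖F (-e0) t‖ₑ (p := 2) (by norm_num)
    norm_num at h2
    simpa using h2
  have hpl : ∀ s, Integrable g ((nu m).map (pg s)) → ∫⁻ t, ‖F s t‖ₑ ^ 2 ≤
      ∫⁻ y, ‖hh g s a y‖ₑ ^ 2 := fun s hs => plan1 _ (hh_int g s a hs hg)
  have hval : ∀ s : E 1, s = e0 ∨ s = -e0 → ∫⁻ y, ‖hh g s a y‖ₑ ^ 2 =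
      ∫⁻ y, ‖g (pg s y)‖ₑ ^ 2 / ENNReal.ofReal |⟪J e0 (0 : E m), pg s y⟫| ∂(nu m) := by
    intro s hs
    have hin : ∀ y : E m, |⟪J e0 (0 : E m), pg s y⟫| = rh y := by
      intro y
      have h0 : 0 ≤ rh y := Real.sqrt_nonneg _
      unfold pg
      rw [J_inner, inner_zero_left, add_zero, real_inner_smul_right, abs_mul, abs_of_nonneg h0]
      rcases hs with rfl | rfl
      · rw [real_inner_self_eq_norm_sq, e0_norm]
        norm_num
      · rw [inner_neg_right, real_inner_self_eq_norm_sq, e0_norm]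
        norm_num
    unfold nu
    rw [lintegral_withDensity_eq_lintegral_mul _ wt_meas]
    · rw [← lintegral_indicator measurableSet_ball]
      refine lintegral_congr fun y => ?_
      unfold hh
      by_cases hy : y ∈ ball (0 : E m) 1
      · rw [indicator_of_mem hy, indicator_of_mem hy, Pi.mul_apply, hin y]
        have h0 := rh_pos hy
        rw [enorm_smul, enorm_mul]
        have h3 : ‖ee (rh y * ⟪s, a⟫)‖ₑ = 1 := by
          rw [← ofReal_norm, ee_norm, ENNReal.ofReal_one]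
        have h4 : ‖(rh y)⁻¹‖ₑ = ENNReal.ofReal ((rh y)⁻¹) := by
          rw [← ofReal_norm, Real.norm_of_nonneg (by positivity)]
        rw [h3, one_mul, h4, div_eq_mul_inv, ← ENNReal.ofReal_inv_of_pos h0]
        ring
      · rw [indicator_of_notMem hy, indicator_of_notMem hy]
        simp
    · have : Measurable fun z : E (1 + m) => ‖g z‖ₑ ^ 2 /
          ENNReal.ofReal |⟪J e0 (0 : E m), z⟫| := by
        refine (hg.enorm.pow_const 2).div (Measurable.ennreal_ofReal ?_)
        exact (Measurable.inner measurable_const measurable_id).abs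
      exact this.comp (pg_meas s)
  have hgm : Measurable fun z : E (1 + m) => ‖g z‖ₑ ^ 2 /
      ENNReal.ofReal |⟪J e0 (0 : E m), z⟫| := by
    refine (hg.enorm.pow_const 2).div (Measurable.ennreal_ofReal ?_)
    exact (Measurable.inner measurable_const measurable_id).abs
  calc ∫⁻ t : E m, ‖∫ z, ee ⟪z, J a t⟫ * g z ∂(sg (1 + m))‖ₑ ^ 2
      ≤ ∫⁻ t : E m, 2 * (‖F e0 t‖ₑ ^ 2 + ‖F (-e0) t‖ₑ ^ 2) := lintegral_mono h1
    _ = 2 * ((∫⁻ t : E m, ‖F e0 t‖ₑ ^ 2) + ∫⁻ t : E m, ‖F (-e0) t‖ₑ ^ 2) := by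
        rw [lintegral_const_mul' _ _ (by norm_num), lintegral_add_left' (hFm e0 hi1)]
    _ ≤ 2 * ((∫⁻ y, ‖hh g e0 a y‖ₑ ^ 2) + ∫⁻ y, ‖hh g (-e0) a y‖ₑ ^ 2) := by
        exact mul_le_mul_right (add_le_add (hpl e0 hi1) (hpl (-e0) hi2)) _
    _ = _ := by
        rw [hval e0 (Or.inl rfl), hval (-e0) (Or.inr rfl), arch1 m hm _ hgm]

theorem one_coord (c : ℝ) (hc : 0 < c) (w : ℝ → ℝ≥0∞) (hw : Measurable w) :
    ∫⁻ a : E 1, w (c * ⟪e0, a⟫) = (ENNReal.ofReal c)⁻¹ * ∫⁻ a, w a := by
  set T : E 1 ≃ᵐ ℝ := (MeasurableEquiv.toLp 2 (Fin 1 → ℝ)).symm.trans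
    (MeasurableEquiv.funUnique (Fin 1) ℝ) with hT
  have hTm : MeasurePreserving T volume volume :=
    (volume_preserving_funUnique (Fin 1) ℝ).comp (PiLp.volume_preserving_ofLp (Fin 1))
  have hTi : ∀ x : E 1, ⟪e0, x⟫ = T x := by
    intro x
    unfold e0
    rw [EuclideanSpace.inner_single_left]
    simp only [map_one, one_mul]
    rfl
  simp_rw [hTi]
  rw [hTm.lintegral_comp (f := fun a => w (c * a)) (hw.comp (measurable_const.mul measurable_id))]
  have h5 := Measure.map_addHaar_smul (volume : Measure ℝ) hc.ne'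
  have h6 : ∫⁻ a, w a ∂(Measure.map (c • ·) (volume : Measure ℝ)) = ∫⁻ a, w (c * a) :=
    lintegral_map hw (measurable_const_smul c)
  rw [← h6, h5, lintegral_smul_measure, smul_eq_mul, Module.finrank_self, pow_one,
    abs_of_pos (by positivity), ENNReal.ofReal_inv_of_pos hc]


end Pool.Agent.R412.SP
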