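import Mathlib
import Pool.Agent.R412.SP.PL
import Pool.Agent.R412.RT.A2
import Pool.Agent.TH304.J1597
import Pool.Agent.R412.SP.SL
set_option autoImplicit false

/-! The slab estimate on the unit sphere. -/

namespace Pool.Agent.R412.SP

open MeasureTheory Complex Set Filter Topology Metric
open scoped ENNReal RealInnerProductSpace ComplexConjugate
open Pool.Agent.R412.RT (E ee ee_norm ee_meas ee_cont ee_add)
open Pool.Agent.H789R2.FR (sg sg_ae sg_finite sg_inv)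
open Pool.Agent.H438R2.BR (J J_mp J_inner)
open Pool.Agent.H438R2.BR.T10 (e0 e0_norm sg_one)

theorem sect {X Y : Type*} [MeasurableSpace X] [MeasurableSpace Y] (Ψ : X → Y → ℝ≥0∞)
    (h : Measurable fun p : X × Y => Ψ p.1 p.2) (a : X) : Measurable (Ψ a) :=
  h.comp measurable_prodMk_left

/-- the slab estimate in the direction of the first coordinate -/
theorem slab1 (m : ℕ) (hm : 1 ≤ m) (c : ℝ) (hc : 0 < c) (w : ℝ → ℝ≥0∞) (hw : Measurable w)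
    (g : E (1 + m) → ℂ) (hg : Measurable g) (hgi : Integrable g (sg (1 + m))) :
    ∫⁻ ξ : E (1 + m), w ⟪c • J e0 (0 : E m), ξ⟫ * ‖∫ z, ee ⟪z, ξ⟫ * g z ∂(sg (1 + m))‖ₑ ^ 2 ≤
      2 * (∫⁻ a, w a) * ∫⁻ z, ‖g z‖ₑ ^ 2 / ENNReal.ofReal |⟪c • J e0 (0 : E m), z⟫|
        ∂(sg (1 + m)) := by
  have := sg_finite (1 + m)
  obtain ⟨G, hG⟩ : ∃ G : E (1 + m) → ℂ, ∀ ξ, G ξ = ∫ z, ee ⟪z, ξ⟫ * g z ∂(sg (1 + m)) :=
    ⟨_, fun ξ => rfl⟩
  have hGm : Measurable G := by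
    have hG' : G = fun ξ => ∫ z, ee ⟪z, ξ⟫ * g z ∂(sg (1 + m)) := funext hG
    rw [hG']
    have : StronglyMeasurable (Function.uncurry fun (ξ z : E (1 + m)) => ee ⟪z, ξ⟫ * g z) := by
      refine StronglyMeasurable.mul ?_ (hg.stronglyMeasurable.comp_measurable measurable_snd)
      refine (ee_meas.comp ?_).stronglyMeasurable
      exact Measurable.inner measurable_snd measurable_fst
    exact this.integral_prod_right.measurable
  have hs0 : ∀ a : E 1, ∫⁻ t : E m, ‖G (J a t)‖ₑ ^ 2 ≤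
      2 * ∫⁻ z, ‖g z‖ₑ ^ 2 / ENNReal.ofReal |⟪J e0 (0 : E m), z⟫| ∂(sg (1 + m)) := by
    intro a
    have := slab0 m hm g hg hgi a
    simp_rw [← hG] at this
    exact this
  simp_rw [← hG]
  have hF : Measurable fun ξ : E (1 + m) => w ⟪c • J e0 (0 : E m), ξ⟫ * ‖G ξ‖ₑ ^ 2 := by
    refine Measurable.mul (hw.comp ?_) (hGm.enorm.pow_const 2)
    exact Measurable.inner measurable_const measurable_id
  have hJm := (J_mp 1 m).measurable
  have hFJ : Measurable fun p : E 1 × E m => w ⟪c • J e0 (0 : E m), J p.1 p.2⟫ *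
      ‖G (J p.1 p.2)‖ₑ ^ 2 := hF.comp hJm
  have h1 : ∫⁻ ξ : E (1 + m), w ⟪c • J e0 (0 : E m), ξ⟫ * ‖G ξ‖ₑ ^ 2 =
      ∫⁻ a : E 1, ∫⁻ t : E m, w ⟪c • J e0 (0 : E m), J a t⟫ * ‖G (J a t)‖ₑ ^ 2 := by
    rw [← (J_mp 1 m).lintegral_comp hF, lintegral_prod _ hFJ.aemeasurable]
  rw [h1]
  have hin : ∀ (a : E 1) (t : E m), ⟪c • J e0 (0 : E m), J a t⟫ = c * ⟪e0, a⟫ := by
    intro a t
    rw [real_inner_smul_left, J_inner, inner_zero_left, add_zero]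
  simp_rw [hin]
  set K : ℝ≥0∞ := ∫⁻ z, ‖g z‖ₑ ^ 2 / ENNReal.ofReal |⟪J e0 (0 : E m), z⟫| ∂(sg (1 + m)) with hK
  have hGJ2 : Measurable fun p : E 1 × E m => ‖G (J p.1 p.2)‖ₑ ^ 2 :=
    (hGm.comp hJm).enorm.pow_const 2
  have hGJm : ∀ a : E 1, Measurable fun t : E m => ‖G (J a t)‖ₑ ^ 2 := by
    intro a
    exact sect (fun a t => ‖G (J a t)‖ₑ ^ 2) hGJ2 a
  have h2 : ∀ a : E 1, ∫⁻ t : E m, w (c * ⟪e0, a⟫) * ‖G (J a t)‖ₑ ^ 2 ≤
      w (c * ⟪e0, a⟫) * (2 * K) := by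
    intro a
    rw [lintegral_const_mul _ (hGJm a)]
    exact mul_le_mul_right (hs0 a) _
  refine (lintegral_mono h2).trans (le_of_eq ?_)
  have hwm : Measurable fun a : E 1 => w (c * ⟪e0, a⟫) := by
    refine hw.comp (measurable_const.mul ?_)
    exact Measurable.inner measurable_const measurable_id
  rw [lintegral_mul_const _ hwm, one_coord c hc w hw]
  have h4 : ∀ z : E (1 + m), ‖g z‖ₑ ^ 2 / ENNReal.ofReal |⟪J e0 (0 : E m), z⟫| =
      ENNReal.ofReal c * (‖g z‖ₑ ^ 2 / ENNReal.ofReal |⟪c • J e0 (0 : E m), z⟫|) := by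
    intro z
    rw [real_inner_smul_left, abs_mul, abs_of_pos hc, ENNReal.ofReal_mul hc.le, div_eq_mul_inv,
      div_eq_mul_inv,
      ENNReal.mul_inv (Or.inr ENNReal.ofReal_ne_top) (Or.inl ENNReal.ofReal_ne_top)]
    calc ‖g z‖ₑ ^ 2 * (ENNReal.ofReal |⟪J e0 (0 : E m), z⟫|)⁻¹
        = (ENNReal.ofReal c * (ENNReal.ofReal c)⁻¹) *
            (‖g z‖ₑ ^ 2 * (ENNReal.ofReal |⟪J e0 (0 : E m), z⟫|)⁻¹) := by
          rw [ENNReal.mul_inv_cancel (by simpa using hc) ENNReal.ofReal_ne_top, one_mul]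
      _ = _ := by ring
  rw [hK]
  simp_rw [h4]
  rw [lintegral_const_mul' _ _ ENNReal.ofReal_ne_top]
  calc (ENNReal.ofReal c)⁻¹ * (∫⁻ a, w a) * (2 * (ENNReal.ofReal c *
        ∫⁻ z, ‖g z‖ₑ ^ 2 / ENNReal.ofReal |⟪c • J e0 (0 : E m), z⟫| ∂(sg (1 + m))))
      = (ENNReal.ofReal c * (ENNReal.ofReal c)⁻¹) * (2 * (∫⁻ a, w a) *
        ∫⁻ z, ‖g z‖ₑ ^ 2 / ENNReal.ofReal |⟪c • J e0 (0 : E m), z⟫| ∂(sg (1 + m))) := by ring
    _ = _ := by
        rw [ENNReal.mul_inv_cancel (by simpa using hc) ENNReal.ofReal_ne_top, one_mul]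


end Pool.Agent.R412.SP
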