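import Mathlib
import Pool.Agent.R412.SP.PL
import Pool.Agent.R412.RT.A2
import Pool.Agent.TH304.J1597
import Pool.Agent.R412.SP.SL2
set_option autoImplicit false

/-! The slab estimate on the unit sphere. -/

namespace Pool.Agent.R412.SP

open MeasureTheory Complex Set Filter Topology Metric
open scoped ENNReal RealInnerProductSpace ComplexConjugate
open Pool.Agent.R412.RT (E ee ee_norm ee_meas ee_cont ee_add)
open Pool.Agent.H789R2.FR (sg sg_ae sg_finite sg_inv)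
open Pool.Agent.H438R2.BR (J J_mp J_inner)
open Pool.Agent.H438R2.BR.T10 (e0 e0_norm sg_one)

/-- the slab estimate in all directions, on `E d` -/
theorem slab_d (d m : ℕ) (hd : d = 1 + m) (hm : 1 ≤ m) (v : E d) (hv : v ≠ 0) (w : ℝ → ℝ≥0∞)
    (hw : Measurable w) (g : E d → ℂ) (hg : Measurable g) (hgi : Integrable g (sg d)) :
    ∫⁻ ξ : E d, w ⟪v, ξ⟫ * ‖∫ z, ee ⟪z, ξ⟫ * g z ∂(sg d)‖ₑ ^ 2 ≤
      2 * (∫⁻ a, w a) * ∫⁻ z, ‖g z‖ₑ ^ 2 / ENNReal.ofReal |⟪v, z⟫| ∂(sg d) := by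
  subst hd
  set y : E (1 + m) := ‖v‖ • J e0 (0 : E m) with hy
  have hJ1 : ‖J e0 (0 : E m)‖ = 1 := by
    have h1 : ‖J e0 (0 : E m)‖ ^ 2 = 1 := by
      rw [← real_inner_self_eq_norm_sq, J_inner, real_inner_self_eq_norm_sq, e0_norm]
      simp
    have h2 := norm_nonneg (J e0 (0 : E m))
    nlinarith
  have hn : ‖y‖ = ‖v‖ := by
    rw [hy, norm_smul, hJ1, mul_one, norm_norm]
  set R : E (1 + m) ≃ₗᵢ[ℝ] E (1 + m) := (ℝ ∙ (y - v))ᗮ.reflection with hR
  have hRy : R y = v := Submodule.reflection_sub hn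
  have hc : 0 < ‖v‖ := norm_pos_iff.2 hv
  have hgR : Measurable fun z => g (R z) := hg.comp R.continuous.measurable
  have hgRi : Integrable (fun z => g (R z)) (sg (1 + m)) :=
    (sg_inv R).integrable_comp_of_integrable hgi
  have key := slab1 m hm ‖v‖ hc w hw (fun z => g (R z)) hgR hgRi
  rw [← hy] at key
  have hG : ∀ ξ : E (1 + m), ∫ z, ee ⟪z, ξ⟫ * g (R z) ∂(sg (1 + m)) =
      ∫ z, ee ⟪z, R ξ⟫ * g z ∂(sg (1 + m)) := by
    intro ξ
    rw [← (sg_inv R).integral_comp R.toHomeomorph.measurableEmbedding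
      (fun z => ee ⟪z, R ξ⟫ * g z)]
    congr 1
    ext z
    rw [R.inner_map_map]
  simp_rw [hG] at key
  set G : E (1 + m) → ℂ := fun ξ => ∫ z, ee ⟪z, ξ⟫ * g z ∂(sg (1 + m)) with hGd
  have := sg_finite (1 + m)
  have hGm : Measurable G := by
    rw [hGd]
    have : StronglyMeasurable (Function.uncurry fun (ξ z : E (1 + m)) => ee ⟪z, ξ⟫ * g z) := by
      refine StronglyMeasurable.mul ?_ (hg.stronglyMeasurable.comp_measurable measurable_snd)
      refine (ee_meas.comp ?_).stronglyMeasurable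
      exact Measurable.inner measurable_snd measurable_fst
    exact this.integral_prod_right.measurable
  have hF : Measurable fun ξ : E (1 + m) => w ⟪v, ξ⟫ * ‖G ξ‖ₑ ^ 2 := by
    refine Measurable.mul (hw.comp ?_) (hGm.enorm.pow_const 2)
    exact Measurable.inner measurable_const measurable_id
  have e1 : ∫⁻ ξ : E (1 + m), w ⟪v, ξ⟫ * ‖G ξ‖ₑ ^ 2 =
      ∫⁻ ξ : E (1 + m), w ⟪y, ξ⟫ * ‖G (R ξ)‖ₑ ^ 2 := by
    rw [← R.measurePreserving.lintegral_comp hF]
    refine lintegral_congr fun ξ => ?_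
    have : ⟪v, R ξ⟫ = ⟪y, ξ⟫ := by
      conv_lhs => rw [← hRy]
      exact R.inner_map_map _ _
    rw [this]
  have hH : Measurable fun z : E (1 + m) => ‖g z‖ₑ ^ 2 / ENNReal.ofReal |⟪v, z⟫| := by
    refine (hg.enorm.pow_const 2).div (Measurable.ennreal_ofReal ?_)
    exact (Measurable.inner measurable_const measurable_id).abs
  have e2 : ∫⁻ z, ‖g z‖ₑ ^ 2 / ENNReal.ofReal |⟪v, z⟫| ∂(sg (1 + m)) =
      ∫⁻ z, ‖g (R z)‖ₑ ^ 2 / ENNReal.ofReal |⟪y, z⟫| ∂(sg (1 + m)) := by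
    rw [← (sg_inv R).lintegral_comp hH]
    refine lintegral_congr fun z => ?_
    have : ⟪v, R z⟫ = ⟪y, z⟫ := by
      conv_lhs => rw [← hRy]
      exact R.inner_map_map _ _
    rw [this]
  rw [e1, e2]
  exact key


end Pool.Agent.R412.SP
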