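import Mathlib
import Pool.Agent.R412.SP.PL
import Pool.Agent.R412.RT.A2
import Pool.Agent.TH304.J1597
import Pool.Agent.R412.SP.SL3
set_option autoImplicit false

/-! The slab estimate on the unit sphere. -/

namespace Pool.Agent.R412.SP

open MeasureTheory Complex Set Filter Topology Metric
open scoped ENNReal RealInnerProductSpace ComplexConjugate
open Pool.Agent.R412.RT (E ee ee_norm ee_meas ee_cont ee_add)
open Pool.Agent.H789R2.FR (sg sg_ae sg_finite sg_inv)
open Pool.Agent.H438R2.BR (J J_mp J_inner)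
open Pool.Agent.H438R2.BR.T10 (e0 e0_norm sg_one)

/-- **the slab estimate on the sphere** -/
theorem slab_S (n : ℕ) (hn : 1 ≤ n) :
    Slab (n := n) (sigma (n + 1)) (fun x => -inc (n + 1) x) (inc (n + 1)) 2 := by
  intro v w g hv hw hg
  -- a measurable extension
  obtain ⟨f0, hf0, hff⟩ := hg.1
  set F : E (n + 1) → ℂ := Function.extend Subtype.val f0 0 with hF
  have hFm : Measurable F :=
    (MeasurableEmbedding.subtype_coe isClosed_sphere.measurableSet).measurable_extend
      hf0.measurable measurable_zero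
  have hFf : ∀ x : sphere (0 : E (n + 1)) 1, F (inc (n + 1) x) = f0 x := fun x => by
    rw [hF]
    exact Subtype.val_injective.extend_apply _ _ _
  have hFi : Integrable F (sg (n + 1)) := by
    rw [sg, integrable_map_measure hFm.aestronglyMeasurable measurable_subtype_coe.aemeasurable]
    refine Integrable.congr hg ?_
    filter_upwards [hff] with x hx
    rw [hx]
    exact (hFf x).symm
  have h1 := slab_d (n + 1) n (Nat.add_comm n 1) hn v hv (fun a => w (-a))
    (hw.comp measurable_neg) F hFm hFi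
  have hG : ∀ ξ : E (n + 1), EX (sigma (n + 1)) (fun x => -inc (n + 1) x) g ξ =
      ∫ z, ee ⟪z, -ξ⟫ * F z ∂(sg (n + 1)) := by
    intro ξ
    have hm : Measurable fun z : E (n + 1) => ee ⟪z, -ξ⟫ * F z :=
      (ee_meas.comp (Measurable.inner measurable_id measurable_const)).mul hFm
    rw [sg, integral_map measurable_subtype_coe.aemeasurable hm.aestronglyMeasurable]
    unfold EX
    refine integral_congr_ae ?_
    filter_upwards [hff] with x hx
    rw [hx, inner_neg_left]
    show _ = ee ⟪inc (n + 1) x, -ξ⟫ * F (inc (n + 1) x)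
    rw [inner_neg_right, hFf]
  have e1 : ∫⁻ ξ : E (n + 1), w ⟪v, ξ⟫ * ‖EX (sigma (n + 1)) (fun x => -inc (n + 1) x) g ξ‖ₑ ^ 2 =
      ∫⁻ ξ : E (n + 1), w (-⟪v, ξ⟫) * ‖∫ z, ee ⟪z, ξ⟫ * F z ∂(sg (n + 1))‖ₑ ^ 2 := by
    have e4 := lintegral_neg_eq_self (μ := (volume : Measure (E (n + 1)))) (fun ξ => w ⟪v, ξ⟫ *
      ‖EX (sigma (n + 1)) (fun x => -inc (n + 1) x) g ξ‖ₑ ^ 2)
    rw [← e4]
    refine lintegral_congr fun ξ => ?_
    rw [hG, neg_neg, inner_neg_right]
  have e2 : ∫⁻ a, w (-a) = ∫⁻ a, w a := lintegral_neg_eq_self (fun a => w a)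
  have e3 : ∫⁻ x, ‖g x‖ₑ ^ 2 / ENNReal.ofReal |⟪v, inc (n + 1) x⟫| ∂(sigma (n + 1)) =
      ∫⁻ z, ‖F z‖ₑ ^ 2 / ENNReal.ofReal |⟪v, z⟫| ∂(sg (n + 1)) := by
    rw [map_inc]
    · refine lintegral_congr_ae ?_
      filter_upwards [hff] with x hx
      rw [hx, hFf]
    · refine (hFm.enorm.pow_const 2).div (Measurable.ennreal_ofReal ?_)
      exact (Measurable.inner measurable_const measurable_id).abs
  rw [e1, e3, ← e2]
  exact h1

end Pool.Agent.R412.SP
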