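import Mathlib
import Pool.Agent.R412.SP.SL4
set_option autoImplicit false

/-! The endpoint estimates on the unit sphere, in final form. -/

namespace Pool.Agent.R412.SP

open MeasureTheory Complex Set Filter Topology Metric
open scoped ENNReal NNReal RealInnerProductSpace ComplexConjugate
open Pool.Agent.R412.RT (E ee ee_norm ee_meas ee_cont ee_add Lo)
open Pool.Agent.R412.RS (cell PS)

/-- the Fourier transform of `f dσ` -/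
noncomputable def ft {n : ℕ} (f : sphere (0 : E n) 1 → ℂ) (ξ : E n) : ℂ :=
  ∫ x, Complex.exp (-(2 * Real.pi * ⟪(x : E n), ξ⟫ : ℝ) * I) * f x ∂(sigma n)

theorem ft_eq {n : ℕ} (f : sphere (0 : E (n + 1)) 1 → ℂ) (ξ : E (n + 1)) :
    ft f ξ = EX (sigma (n + 1)) (fun x => -inc (n + 1) x) f ξ := by
  unfold ft EX
  congr 1
  ext x
  congr 1
  unfold ee
  rw [inner_neg_left]
  unfold inc
  congr 1
  push_cast
  ring

theorem nf_eq {n : ℕ} (hn : 1 ≤ n) (f : sphere (0 : E (n + 1)) 1 → ℂ) :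
    nf (sigma (n + 1)) n f =
      eLpNorm f (ENNReal.ofReal (2 * ((n + 1 : ℕ) : ℝ) / (((n + 1 : ℕ) : ℝ) - 1)))
        (sigma (n + 1)) ^ 2 := by
  have hn' : (0 : ℝ) < n := by exact_mod_cast hn
  have h1 : 2 * ((n + 1 : ℕ) : ℝ) / (((n + 1 : ℕ) : ℝ) - 1) = 2 * ((n : ℝ) + 1) / n := by
    push_cast
    rw [add_sub_cancel_right]
  rw [h1]
  have h0 : 0 < 2 * ((n : ℝ) + 1) / n := by positivity
  rw [eLpNorm_eq_lintegral_rpow_enorm_toReal (by simpa using h0) ENNReal.ofReal_ne_top,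
    ENNReal.toReal_ofReal h0.le, ← ENNReal.rpow_natCast, ← ENNReal.rpow_mul]
  unfold nf
  congr 1
  push_cast
  field_simp

theorem hΦ {n : ℕ} : Measurable fun x => -inc (n + 1) x := (inc_meas (n + 1)).neg

theorem cp_ne_zero (n : ℕ) : ((n : ℝ≥0∞) + 1) * 2 ^ (n + 1) ≠ 0 :=
  mul_ne_zero (by positivity) (by positivity)

theorem cp_ne_top (n : ℕ) : ((n : ℝ≥0∞) + 1) * 2 ^ (n + 1) ≠ ∞ :=
  ENNReal.mul_ne_top (ENNReal.add_ne_top.2 ⟨ENNReal.natCast_ne_top n, ENNReal.one_ne_top⟩)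
    (ENNReal.pow_ne_top (by norm_num))

/-- the constant at the endpoint -/
noncomputable def CE (n : ℕ) : ℝ≥0∞ := Ce n 2 (((n : ℝ≥0∞) + 1) * 2 ^ (n + 1))

theorem CE_ne_top (n : ℕ) : CE n ≠ ∞ := by
  unfold CE Ce
  refine ENNReal.mul_ne_top (ENNReal.mul_ne_top ?_ (by norm_num)) ?_
  · exact ENNReal.add_ne_top.2 ⟨ENNReal.natCast_ne_top n, ENNReal.one_ne_top⟩
  · exact ENNReal.rpow_ne_top_of_nonneg (by positivity) (cp_ne_top n)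

/-- the volume of the unit cell of the frame `v` -/
noncomputable def cellv {n : ℕ} (v : Fin n → E n) : ℝ≥0∞ :=
  volume {ξ : E n | ∀ i, ⟪v i, ξ⟫ ∈ Ioc (0 : ℝ) 1}

/-- the Lorentz norm `L^(n,1)(ℝ)`, `∫_0^∞ |{u > t}|^(1/n) dt` -/
noncomputable def lorentz (n : ℕ) (u : ℝ → ℝ≥0∞) : ℝ≥0∞ :=
  ∫⁻ t in Ioi (0 : ℝ), volume {a | ENNReal.ofReal t < u a} ^ (1 / (n : ℝ))

theorem partA {n : ℕ} (hn : 1 ≤ n) (f : sphere (0 : E (n + 1)) 1 → ℂ)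
    (hf : Integrable f (sigma (n + 1))) (v : Fin (n + 1) → E (n + 1))
    (hv : LinearIndependent ℝ v) (A : Fin (n + 1) → Set ℝ) (hA : ∀ i, MeasurableSet (A i)) :
    ∫⁻ ξ in {ξ : E (n + 1) | ∀ i, ⟪v i, ξ⟫ ∈ A i}, ‖ft f ξ‖ₑ ^ 2 ≤
      CE n * volume {ξ : E (n + 1) | ∀ i, ⟪v i, ξ⟫ ∈ A i} ^ (1 / ((n + 1 : ℕ) : ℝ)) *
        eLpNorm f (ENNReal.ofReal (2 * ((n + 1 : ℕ) : ℝ) / (((n + 1 : ℕ) : ℝ) - 1)))
          (sigma (n + 1)) ^ 2 := by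
  rw [← nf_eq hn f]
  simp_rw [ft_eq f]
  have h := endpointS (sigma (n + 1)) (fun x => -inc (n + 1) x) (inc (n + 1)) v hn hΦ
    (inc_meas (n + 1)) 2 _ (by norm_num) (cp_ne_zero n) (slab_S n hn) polar_S hv A hA f hf
  push_cast
  exact h

theorem partB {n : ℕ} (hn : 1 ≤ n) (f : sphere (0 : E (n + 1)) 1 → ℂ)
    (hf : Integrable f (sigma (n + 1))) (v : Fin (n + 1) → E (n + 1))
    (hv : LinearIndependent ℝ v) (w : Fin (n + 1) → ℝ → ℝ≥0∞) (W : E (n + 1) → ℝ≥0∞)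
    (hw : ∀ i, Measurable (w i)) (hW : ∀ ξ i, W ξ ≤ w i ⟪v i, ξ⟫) :
    ∫⁻ ξ, W ξ * ‖ft f ξ‖ₑ ^ 2 ≤
      CE n * (cellv v * ∏ i, ∫⁻ t, w i t) ^ (1 / ((n + 1 : ℕ) : ℝ)) *
        eLpNorm f (ENNReal.ofReal (2 * ((n + 1 : ℕ) : ℝ) / (((n + 1 : ℕ) : ℝ) - 1)))
          (sigma (n + 1)) ^ 2 := by
  rw [← nf_eq hn f]
  simp_rw [ft_eq f]
  have h := endpointW (sigma (n + 1)) (fun x => -inc (n + 1) x) (inc (n + 1)) v hn hΦ
    (inc_meas (n + 1)) 2 _ (by norm_num) (cp_ne_zero n) (slab_S n hn) polar_S hv w hw W hW f hf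
  push_cast
  exact h

theorem partC {n : ℕ} (hn : 1 ≤ n) (f : sphere (0 : E (n + 1)) 1 → ℂ)
    (hf : Integrable f (sigma (n + 1))) (v : Fin (n + 1) → E (n + 1))
    (hv : LinearIndependent ℝ v) (w : Fin (n + 1) → ℝ → ℝ≥0∞) (hw : ∀ i, Measurable (w i)) :
    ∫⁻ ξ, (∏ i, w i ⟪v i, ξ⟫) * ‖ft f ξ‖ₑ ^ 2 ≤
      CE n * cellv v ^ (1 / ((n + 1 : ℕ) : ℝ)) * (∏ i, lorentz (n + 1) (w i)) *
        eLpNorm f (ENNReal.ofReal (2 * ((n + 1 : ℕ) : ℝ) / (((n + 1 : ℕ) : ℝ) - 1)))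
          (sigma (n + 1)) ^ 2 := by
  rw [← nf_eq hn f]
  simp_rw [ft_eq f]
  have h := lorentzS (sigma (n + 1)) (fun x => -inc (n + 1) x) (inc (n + 1)) v hn hΦ
    (inc_meas (n + 1)) 2 _ (by norm_num) (cp_ne_zero n) (slab_S n hn) polar_S hv w hw f hf
  refine h.trans (le_of_eq ?_)
  have h2 : ∀ i, lorentz (n + 1) (w i) = Lo ((n : ℝ) + 1) (w i) := by
    intro i
    unfold lorentz Lo
    push_cast
    rfl
  simp_rw [h2]
  push_cast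
  unfold CE cellv
  have h3 : cell v = volume {ξ : E (n + 1) | ∀ i, ⟪v i, ξ⟫ ∈ Ioc (0 : ℝ) 1} := rfl
  rw [h3]
  ring

/-- the constant below the endpoint -/
noncomputable def CW (n : ℕ) (r : ℝ) : ℝ≥0∞ :=
  Cw n 2 (((n : ℝ≥0∞) + 1) * 2 ^ (n + 1)) (1 / 16) r

theorem CW_ne_top (n : ℕ) (r : ℝ) : CW n r ≠ ∞ :=
  Cw_ne_top n 2 _ (by norm_num) (cp_ne_top n) _ r

theorem partD {n : ℕ} (hn : 1 ≤ n) (r : ℝ) (hr : 1 ≤ r) (hrn : r < ((n + 1 : ℕ) : ℝ))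
    (f : sphere (0 : E (n + 1)) 1 → ℂ)
    (hf : Integrable f (sigma (n + 1))) (e : OrthonormalBasis (Fin (n + 1)) ℝ (E (n + 1)))
    (w : Fin (n + 1) → ℝ → ℝ≥0∞) (hw : ∀ i, Measurable (w i)) :
    ∫⁻ ξ, (∏ i, w i ⟪e i, ξ⟫) * ‖ft f ξ‖ₑ ^ 2 ≤
      CW n r * (∏ i, (∫⁻ t, w i t ^ r) ^ (1 / r)) *
        eLpNorm f (ENNReal.ofReal (2 * ((n + 1 : ℕ) : ℝ) / (((n + 1 : ℕ) : ℝ) - 1)))
          (sigma (n + 1)) ^ 2 := by
  rw [← nf_eq hn f]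
  simp_rw [ft_eq f]
  have hrn' : r < (n : ℝ) + 1 := by
    push_cast at hrn
    exact hrn
  have h := weightsO (sigma (n + 1)) (fun x => -inc (n + 1) x) (inc (n + 1)) hn hΦ
    (inc_meas (n + 1)) 2 _ (by norm_num) (cp_ne_zero n) (slab_S n hn) polar_S 1 (1 / 16)
    (by norm_num) (by nlinarith [Real.pi_lt_four]) (fun x => by
      rw [norm_neg]
      exact (mem_sphere_zero_iff_norm.1 x.2).le) r hr hrn' e w hw f hf
  refine h.trans (le_of_eq ?_)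
  unfold CW
  ring

end Pool.Agent.R412.SP
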