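import Mathlib
import Pool.Agent.R412.SP.Z
import Pool.Agent.R412.SP.F3
set_option autoImplicit false

/-! The quadratic Finner form on the sphere. -/

namespace Pool.Agent.R412.SP

open MeasureTheory Set Metric Complex Filter
open Pool.Agent.TH278.FN
open Pool.Agent.H789R2.FR (E sg T sg_finite sg_ae)
open scoped ENNReal NNReal RealInnerProductSpace

/-- the coordinates of `ξ` in the basis `e` -/
noncomputable def co {n : ℕ} (e : OrthonormalBasis (Fin n) ℝ (E n)) (ξ : E n) (i : Fin n) : ℝ :=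
  ⟪e i, ξ⟫

/-- measurable extension to the whole space, composed with the rotation to the basis `e` -/
theorem exists_G {n : ℕ} (e : OrthonormalBasis (Fin n) ℝ (E n)) (f : sphere (0 : E n) 1 → ℂ)
    (hf : AEStronglyMeasurable f (sigma n)) :
    ∃ G : E n → ℂ, Measurable G ∧ (∀ᵐ x ∂(sigma n), f x = G (e.repr x)) ∧
      (∀ p : ℝ, ∫⁻ z, ‖G z‖ₑ ^ p ∂(sg n) = ∫⁻ x, ‖f x‖ₑ ^ p ∂(sigma n)) ∧
      (∀ M : ℝ, 0 ≤ M → (∀ᵐ x ∂(sigma n), ‖f x‖ ≤ M) → ∀ᵐ z ∂(sg n), ‖G z‖ ≤ M) := by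
  obtain ⟨f0, hf0, hff⟩ := hf
  set F : E n → ℂ := Function.extend Subtype.val f0 0 with hF
  have hFm : Measurable F :=
    (MeasurableEmbedding.subtype_coe isClosed_sphere.measurableSet).measurable_extend
      hf0.measurable measurable_zero
  have hFf : ∀ x : sphere (0 : E n) 1, F x = f0 x := fun x => by
    rw [hF, Subtype.val_injective.extend_apply]
  have hG : Measurable fun z => F (e.repr.symm z) := hFm.comp e.repr.symm.continuous.measurable
  have hmap : ∀ h : E n → ℝ≥0∞, Measurable h →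
      ∫⁻ z, h z ∂(sg n) = ∫⁻ x : sphere (0 : E n) 1, h (x : E n) ∂(sigma n) := by
    intro h hh
    rw [sg, lintegral_map hh measurable_subtype_coe]
    rfl
  refine ⟨fun z => F (e.repr.symm z), hG, ?_, ?_, ?_⟩
  · filter_upwards [hff] with x hx
    rw [LinearIsometryEquiv.symm_apply_apply, hFf, hx]
  · intro p
    have h1 := (Pool.Agent.H789R2.FR.sg_inv e.repr.symm).lintegral_comp (hFm.enorm.pow_const p)
    rw [h1, hmap _ (hFm.enorm.pow_const p)]
    refine lintegral_congr_ae ?_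
    filter_upwards [hff] with x hx
    rw [hFf, hx]
  · intro M hM0 hM
    have h1 : ∀ᵐ z ∂(sg n), ‖F z‖ ≤ M := by
      rw [sg, ae_map_iff measurable_subtype_coe.aemeasurable
        (measurableSet_le hFm.norm measurable_const)]
      have : ∀ᵐ x : sphere (0 : E n) 1 ∂(sigma n), ‖F (x : E n)‖ ≤ M := by
        filter_upwards [hff, hM] with x hx hx2
        rw [hFf, ← hx]
        exact hx2
      exact this
    exact (Pool.Agent.H789R2.FR.sg_inv e.repr.symm).quasiMeasurePreserving.ae h1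

theorem ft_eqT {n : ℕ} (e : OrthonormalBasis (Fin n) ℝ (E n)) (f : sphere (0 : E n) 1 → ℂ)
    (G : E n → ℂ) (hG : Measurable G) (hg : ∀ᵐ x ∂(sigma n), f x = G (e.repr x)) (ξ : E n) :
    ft f ξ = T G ((2 * Real.pi) • e.repr ξ) := by
  rw [← map_smul, ← T_comp]
  unfold T ft
  have m1 : Measurable fun w : E n =>
      Complex.exp (-((⟪(2 * Real.pi) • ξ, w⟫ : ℝ) : ℂ) * I) * G (e.repr w) := by
    have h2 : Measurable fun z : E n => (⟪(2 * Real.pi) • ξ, z⟫ : ℝ) :=
      (by fun_prop : Continuous _).measurable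
    exact (Complex.measurable_exp.comp ((Complex.measurable_ofReal.comp h2).neg.mul_const I)).mul
      (hG.comp e.repr.continuous.measurable)
  simp only [sg]
  rw [integral_map measurable_subtype_coe.aemeasurable m1.aestronglyMeasurable]
  apply integral_congr_ae
  filter_upwards [hg] with x hx
  rw [hx, real_inner_smul_left, real_inner_comm]

/-- change of variables to the coordinates of the basis `e` -/
theorem change2 {n : ℕ} (e : OrthonormalBasis (Fin n) ℝ (E n)) (f : sphere (0 : E n) 1 → ℂ)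
    (G : E n → ℂ) (hG : Measurable G) (hg : ∀ᵐ x ∂(sigma n), f x = G (e.repr x))
    (h : (Fin n → ℝ) → ℝ≥0∞) (hh : Measurable h) :
    ∫⁻ ξ, ‖ft f ξ‖ₑ ^ 2 * h (co e ξ) = ∫⁻ x : Fin n → ℝ, FG G x ^ (2 : ℝ) * h x := by
  have h1 : ∀ ξ, ‖ft f ξ‖ₑ ^ 2 * h (co e ξ) =
      (fun x : Fin n → ℝ => FG G x ^ (2 : ℝ) * h x) (fun i => e.repr ξ i) := by
    intro ξ
    have h2 : (fun i => e.repr ξ i) = co e ξ := by
      ext i
      rw [e.repr_apply_apply]
      rfl
    simp only
    rw [h2, ft_eqT e f G hG hg ξ]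
    congr 1
    unfold FG
    rw [← h2, ← ENNReal.rpow_natCast]
    norm_num
  simp_rw [h1]
  have hm : Measurable fun x : Fin n → ℝ => FG G x ^ (2 : ℝ) * h x :=
    ((FG_meas G hG).pow_const _).mul hh
  have hm2 : Measurable fun y : E n => (fun x : Fin n → ℝ => FG G x ^ (2 : ℝ) * h x) (fun i => y i) :=
    hm.comp (by fun_prop)
  rw [lint_E _ hm]
  exact e.repr.measurePreserving.lintegral_comp hm2

theorem partE (n : ℕ) (hn : 3 ≤ n) (q : ℝ) (hq : 2 * (n : ℝ) / (n - 1) < q) :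
    ∃ C : ℝ≥0, ∀ (e : OrthonormalBasis (Fin n) ℝ (E n)) (v : Fin n → ℝ) (w : Fin n → Fin n → ℝ),
      Weights v w → ∀ p : ℝ≥0∞, (p = ∞ ∨ p = 4 ∧ ∀ i, v i = 0) →
      ∀ (f : sphere (0 : E n) 1 → ℂ), MemLp f p (sigma n) →
      ∀ (φ : Fin n → ℝ → ℝ≥0∞) (g : Fin n → Fin n → ℝ × ℝ → ℝ≥0∞), (∀ i, Measurable (φ i)) →
        (∀ i j, Measurable (g i j)) →
        ∫⁻ ξ, ‖ft f ξ‖ₑ ^ 2 * ((∏ i, φ i (co e ξ i) ^ (v i * (1 - 2 / q))) *
            ∏ i, ∏ j ∈ Finset.Ioi i, g i j (co e ξ i, co e ξ j) ^ (w i j * (1 - 2 / q))) ≤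
          (C * eLpNorm f p (sigma n)) ^ (2 : ℝ) * ((∏ i, (∫⁻ t, φ i t) ^ (v i * (1 - 2 / q))) *
            ∏ i, ∏ j ∈ Finset.Ioi i, (∫⁻ z, g i j z) ^ (w i j * (1 - 2 / q))) := by
  obtain ⟨C, hC⟩ := sphere_gen2 n hn q hq
  have hsf := sg_finite n
  refine ⟨C, ?_⟩
  intro e v w hw p hp f hf φ g hφ hg
  have hm : Measurable fun x : Fin n → ℝ => (∏ i, φ i (x i) ^ (v i * (1 - 2 / q))) *
      ∏ i, ∏ j ∈ Finset.Ioi i, g i j (x i, x j) ^ (w i j * (1 - 2 / q)) := by
    refine Measurable.mul ?_ ?_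
    · exact Finset.measurable_fun_prod _ fun i _ =>
        ((hφ i).comp (measurable_pi_apply i)).pow_const _
    · refine Finset.measurable_fun_prod _ fun i _ => Finset.measurable_fun_prod _ fun j _ => ?_
      exact ((hg i j).comp ((measurable_pi_apply i).prodMk (measurable_pi_apply j))).pow_const _
  rcases hp with rfl | ⟨rfl, hv⟩
  · obtain ⟨G0, hG0, hfG0, -, hbd⟩ := exists_G e f hf.1
    have h1 : eLpNorm f ∞ (sigma n) ≠ ⊤ := hf.2.ne
    set M : ℝ := (eLpNorm f ∞ (sigma n)).toReal with hMdef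
    have hM0 : 0 ≤ M := ENNReal.toReal_nonneg
    have hM : ∀ᵐ x ∂(sigma n), ‖f x‖ ≤ M := by
      have h2 := h1
      rw [eLpNorm_exponent_top] at h2
      filter_upwards [enorm_ae_le_eLpNormEssSup f (sigma n)] with x hx
      rw [hMdef, ← toReal_enorm, eLpNorm_exponent_top]
      exact ENNReal.toReal_mono h2 hx
    have hbd' := hbd M hM0 hM
    -- the bounded representative
    set G : E n → ℂ := {z | ‖G0 z‖ ≤ M}.indicator G0 with hGdef
    have hG : Measurable G := hG0.indicator (measurableSet_le hG0.norm measurable_const)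
    have hGM : ∀ z, ‖G z‖ ≤ M := by
      intro z
      by_cases h : z ∈ {z | ‖G0 z‖ ≤ M}
      · rw [hGdef, indicator_of_mem h]; exact h
      · rw [hGdef, indicator_of_notMem h, norm_zero]; exact hM0
    have hfG : ∀ᵐ x ∂(sigma n), f x = G (e.repr x) := by
      filter_upwards [hfG0, hM] with x hx hx2
      rw [hGdef, indicator_of_mem (show e.repr (x : E n) ∈ {z | ‖G0 z‖ ≤ M} by
        simp only [mem_ofPred_eq]
        rw [← hx]
        exact hx2)]
      exact hx
    have hGi : Integrable G (sg n) :=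
      Integrable.of_bound hG.aestronglyMeasurable M (Eventually.of_forall hGM)
    rw [change2 e f G hG hfG (fun x => (∏ i, φ i (x i) ^ (v i * (1 - 2 / q))) *
        ∏ i, ∏ j ∈ Finset.Ioi i, g i j (x i, x j) ^ (w i j * (1 - 2 / q))) hm]
    have h7 := (hC G hG hGi v w hw φ g hφ hg).1 M hGM
    have h8 : ENNReal.ofReal M = eLpNorm f ∞ (sigma n) := ENNReal.ofReal_toReal h1
    rw [h8] at h7
    exact h7
  · obtain ⟨G, hG, hfG, hint, -⟩ := exists_G e f hf.1
    have h4 : eLpNorm f 4 (sigma n) = (∫⁻ z, ‖G z‖ₑ ^ (4 : ℝ) ∂(sg n)) ^ (1 / 4 : ℝ) := by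
      rw [eLpNorm_eq_lintegral_rpow_enorm_toReal (by norm_num) (by norm_num), hint]
      norm_num
    have hGi : Integrable G (sg n) := by
      have h5 : MemLp G 4 (sg n) := by
        refine ⟨hG.aestronglyMeasurable, ?_⟩
        rw [eLpNorm_eq_lintegral_rpow_enorm_toReal (by norm_num) (by norm_num)]
        have h6 := hf.2
        rw [h4] at h6
        norm_num at h6 ⊢
        exact h6
      exact h5.integrable (by norm_num)
    rw [change2 e f G hG hfG (fun x => (∏ i, φ i (x i) ^ (v i * (1 - 2 / q))) *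
        ∏ i, ∏ j ∈ Finset.Ioi i, g i j (x i, x j) ^ (w i j * (1 - 2 / q))) hm, h4]
    exact (hC G hG hGi v w hw φ g hφ hg).2 hv


end Pool.Agent.R412.SP
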